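import Pool.Agent.TH2.MS.Cyc
import Pool.Agent.H522R3.SW.Circ

set_option autoImplicit false
set_option linter.unusedSectionVars false

/-!
# From circuits to decompositions
-/

namespace Pool.Agent.TH2.MS

open Finset Matrix MvPolynomial Pool.Agent.H522R3.SW

section poly

variable {V F : Type} [Field F]

/-- the coefficient of a variable -/
noncomputable def d1 (x : V) (p : MvPolynomial V F) : F := constantCoeff (pderiv x p)

/-- the coefficient of the product of two distinct variables -/
noncomputable def d2 (x y : V) (p : MvPolynomial V F) : F :=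
  constantCoeff (pderiv y (pderiv x p))

theorem pderiv_multiset [DecidableEq V] {α : Type} [DecidableEq α] (x : V) (A : Multiset α)
    (f : α → MvPolynomial V F) : pderiv x ((A.map f).prod) =
      (A.map fun h => pderiv x (f h) * ((A.erase h).map f).prod).sum := by
  induction A using Multiset.induction_on with
  | empty => simp
  | cons h0 A ih =>
    rw [Multiset.map_cons, Multiset.prod_cons, pderiv_mul, ih, Multiset.map_cons,
      Multiset.sum_cons, Multiset.erase_cons_head]
    congr 1
    rw [← Multiset.sum_map_mul_left]
    congr 1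
    refine Multiset.map_congr rfl fun h hh => ?_
    have h1 : ((((h0 ::ₘ A).erase h).map f).prod : MvPolynomial V F) =
        f h0 * ((A.erase h).map f).prod := by
      by_cases he : h0 = h
      · subst he
        rw [Multiset.erase_cons_head]
        conv_lhs => rw [← Multiset.cons_erase hh]
        rw [Multiset.map_cons, Multiset.prod_cons]
      · rw [Multiset.erase_cons_tail _ he, Multiset.map_cons, Multiset.prod_cons]
    rw [h1]
    ring

theorem d2_prod [DecidableEq V] {α : Type} [DecidableEq α] (x y : V) (A : Multiset α)
    (f : α → MvPolynomial V F) : d2 x y ((A.map f).prod) =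
      (A.map fun h => d2 x y (f h) * constantCoeff ((A.erase h).map f).prod).sum +
      (A.map fun h => d1 x (f h) * d1 y ((A.erase h).map f).prod).sum := by
  unfold d2 d1
  rw [pderiv_multiset, map_multiset_sum, map_multiset_sum, Multiset.map_map, Multiset.map_map,
    ← Multiset.sum_map_add]
  congr 1
  refine Multiset.map_congr rfl fun h hh => ?_
  simp only [Function.comp, pderiv_mul, map_add, map_mul]

theorem pderiv_rename' {V' : Type} (s : V → V') (hs : Function.Injective s) (x : V)
    (p : MvPolynomial V F) : pderiv (s x) (rename s p) = rename s (pderiv x p) := by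
  classical
  induction p using MvPolynomial.induction_on with
  | C c => simp
  | add p q hp hq => simp only [map_add, hp, hq]
  | mul_X p i hp =>
    rw [map_mul, pderiv_mul, hp, pderiv_mul, map_add, map_mul, map_mul, rename_X]
    congr 2
    by_cases hi : i = x
    · subst hi
      simp
    · rw [pderiv_X_of_ne hi, pderiv_X_of_ne (fun h => hi (hs h)), map_zero]

theorem d1_rename {V' : Type} (s : V → V') (hs : Function.Injective s) (x : V)
    (p : MvPolynomial V F) : d1 (s x) (rename s p) = d1 x p := by
  unfold d1
  rw [pderiv_rename' s hs, constantCoeff_rename]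

end poly

theorem sum_multiset_comm {α β : Type} {F : Type*} [AddCommMonoid F] [Fintype β] (A : Multiset α)
    (f : α → β → F) : ∑ h, (A.map fun z => f z h).sum = (A.map fun z => ∑ h, f z h).sum := by
  induction A using Multiset.induction_on with
  | empty => simp
  | cons a A ih =>
    simp only [Multiset.map_cons, Multiset.sum_cons, Finset.sum_add_distrib, ih]

section circ

variable {V F G : Type} [Field F] (C : Circ V F G) (val : G → MvPolynomial V F)

open Classical in
/-- the product of the other arguments -/
noncomputable def oth (g x : G) : MvPolynomial V F := (((C.args g).erase x).map val).prod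

open Classical in
/-- the weight of an edge -/
noncomputable def wt (g x : G) : F :=
  match C.lab g with
  | .var _ => 0
  | .const _ => 0
  | .add => 1
  | .mul => constantCoeff (oth C val g x)

open Classical in
/-- the propagation coefficients -/
noncomputable def prop (g h : G) : F :=
  (if g = h then 1 else 0) +
    ((C.args g).attach.map fun x => wt C val g x.1 * prop x.1 h).sum
termination_by C.num g
decreasing_by exact C.num_lt g x.1 x.2

open Classical in
theorem prop_eq (g h : G) : prop C val g h = (if g = h then 1 else 0) +
    ((C.args g).map fun x => wt C val g x * prop C val x h).sum := by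
  rw [prop]
  congr 1
  rw [Multiset.attach_map_val' (C.args g) fun x => wt C val g x * prop C val x h]

open Classical in
/-- the products of linear forms in a gate -/
noncomputable def mus (x y : V) (g : G) : F :=
  match C.lab g with
  | .mul => ((C.args g).map fun z => d1 x (val z) * d1 y (oth C val g z)).sum
  | _ => 0

variable {C val}

theorem d2_rec (hval : IsVal C val) {x y : V} (g : G) :
    d2 x y (val g) = mus C val x y g +
      ((C.args g).map fun z => wt C val g z * d2 x y (val z)).sum := by
  classical
  have hv := hval g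
  unfold mus wt
  cases hl : C.lab g with
  | var i =>
    rw [hl] at hv
    simp only at hv
    rw [hv]
    simp only [zero_mul, Multiset.map_const', Multiset.sum_replicate, smul_zero, add_zero]
    unfold d2
    by_cases hi : i = x
    · subst hi
      simp
    · rw [pderiv_X_of_ne hi]
      simp
  | const c =>
    rw [hl] at hv
    simp only at hv
    rw [hv]
    simp [d2]
  | add =>
    rw [hl] at hv
    simp only at hv
    rw [hv]
    simp only [one_mul, zero_add]
    unfold d2
    rw [map_multiset_sum, map_multiset_sum, map_multiset_sum, Multiset.map_map, Multiset.map_map,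
      Multiset.map_map]
    rfl
  | mul =>
    rw [hl] at hv
    simp only at hv
    conv_lhs => rw [hv]
    rw [d2_prod, add_comm]
    congr 1
    congr 1
    refine Multiset.map_congr rfl fun z _ => ?_
    rw [mul_comm]
    rfl

variable [Fintype G]

theorem d2_sum (hval : IsVal C val) {x y : V} (g : G) :
    d2 x y (val g) = ∑ h, prop C val g h * mus C val x y h := by
  classical
  suffices hs : ∀ n, ∀ g, C.num g < n →
      d2 x y (val g) = ∑ h, prop C val g h * mus C val x y h from
    hs (C.num g + 1) g (Nat.lt_succ_self _)
  intro n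
  induction n with
  | zero => intro g hg; exact absurd hg (Nat.not_lt_zero _)
  | succ n ih =>
    intro g hg
    have e1 : ∑ h, prop C val g h * mus C val x y h = mus C val x y g +
        ((C.args g).map fun z => wt C val g z * ∑ h, prop C val z h * mus C val x y h).sum := by
      calc ∑ h, prop C val g h * mus C val x y h =
          ∑ h, ((if g = h then 1 else 0) * mus C val x y h +
            ((C.args g).map fun z => wt C val g z * prop C val z h * mus C val x y h).sum) := by
            refine Finset.sum_congr rfl fun h _ => ?_
            rw [prop_eq, add_mul, ← Multiset.sum_map_mul_right]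
        _ = _ := by
            rw [Finset.sum_add_distrib]
            congr 1
            · simp
            · rw [sum_multiset_comm]
              congr 1
              refine Multiset.map_congr rfl fun z _ => ?_
              rw [Finset.mul_sum]
              refine Finset.sum_congr rfl fun h _ => ?_
              ring
    rw [e1, d2_rec hval g]
    congr 2
    refine Multiset.map_congr rfl fun z hz => ?_
    rw [ih z (lt_of_lt_of_le (C.num_lt g z hz) (Nat.lt_succ_iff.mp hg))]

end circ

/-! ### Symmetries -/

section sym

variable {V F G : Type} [Field F] {C : Circ V F G} {val : G → MvPolynomial V F}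

theorem oth_aut (hval : IsVal C val) {s : V → V} {π : Equiv.Perm G} (hπ : IsAut C s π) (g x : G) :
    oth C val (π g) (π x) = rename s (oth C val g x) := by
  classical
  unfold oth
  rw [(hπ g).2, ← Multiset.map_erase _ π.injective, Multiset.map_map, map_multiset_prod,
    Multiset.map_map]
  congr 1
  refine Multiset.map_congr rfl fun h _ => ?_
  exact val_aut hval hπ h

theorem wt_aut (hval : IsVal C val) {s : V → V} {π : Equiv.Perm G} (hπ : IsAut C s π) (g x : G) :
    wt C val (π g) (π x) = wt C val g x := by
  unfold wt
  rw [(hπ g).1]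
  cases hl : C.lab g with
  | var i => rfl
  | const c => rfl
  | add => rfl
  | mul =>
    show constantCoeff (oth C val (π g) (π x)) = constantCoeff (oth C val g x)
    rw [oth_aut hval hπ, constantCoeff_rename]

theorem prop_aut (hval : IsVal C val) {s : V → V} {π : Equiv.Perm G} (hπ : IsAut C s π) (g h : G) :
    prop C val (π g) (π h) = prop C val g h := by
  classical
  suffices hs : ∀ n, ∀ g, C.num g < n → prop C val (π g) (π h) = prop C val g h from
    hs (C.num g + 1) g (Nat.lt_succ_self _)
  intro n
  induction n with
  | zero => intro g hg; exact absurd hg (Nat.not_lt_zero _)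
  | succ n ih =>
    intro g hg
    rw [prop_eq, prop_eq C val g h, (hπ g).2, Multiset.map_map]
    congr 1
    · simp only [EmbeddingLike.apply_eq_iff_eq]
    · congr 1
      refine Multiset.map_congr rfl fun x hx => ?_
      simp only [Function.comp]
      rw [wt_aut hval hπ, ih x (lt_of_lt_of_le (C.num_lt g x hx) (Nat.lt_succ_iff.mp hg))]

end sym

/-! ### The decomposition -/

section dec

variable {M F G : Type} [Fintype M] [DecidableEq M] [Field F] [Fintype G]

/-- the wires into the product gates (pairs of a product gate and one of its arguments) -/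
abbrev Wr {V : Type} (C : Circ V F G) : Type := {w : G × G // C.lab w.1 = .mul ∧ w.2 ∈ C.args w.1}

noncomputable instance {V : Type} (C : Circ V F G) : Fintype (Wr C) := Fintype.ofFinite _

variable (C : Circ (Va M) F G) (val : G → MvPolynomial (Va M) F) (out : M → M → G)

/-- first factors -/
noncomputable def cA (t : Wr C) : Matrix M M F := Matrix.of fun i j => d1 (Sum.inl (i, j)) (val t.1.2)

open Classical in
/-- second factors -/
noncomputable def cB' (t : Wr C) : Matrix M M F :=
  Matrix.of fun j l => ((C.args t.1.1).count t.1.2 : F) * d1 (Sum.inr (j, l)) (oth C val t.1.1 t.1.2)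

/-- third factors -/
noncomputable def cC (t : Wr C) : Matrix M M F := Matrix.of fun l i => prop C val (out i l) t.1.1

variable {C val out}

theorem d2_entry (i i' j j' l l' : M) :
    d2 (Sum.inl (i, j)) (Sum.inr (j', l)) (prodEntry F i' l') =
      if j = j' ∧ l = l' ∧ i = i' then 1 else 0 := by
  classical
  have h1 : ∀ k, d2 (Sum.inl (i, j)) (Sum.inr (j', l))
      (X (Sum.inl (i', k)) * X (Sum.inr (k, l')) : MvPolynomial (Va M) F) =
      if (i', k) = (i, j) ∧ (k, l') = (j', l) then 1 else 0 := by
    intro k
    unfold d2
    rw [pderiv_mul, pderiv_X_of_ne (i := Sum.inl (i, j)) (j := Sum.inr (k, l')) (by simp), mul_zero,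
      add_zero]
    by_cases h2 : (i', k) = (i, j)
    · rw [h2, pderiv_X_self, one_mul]
      by_cases h3 : (k, l') = (j', l)
      · rw [h3, pderiv_X_self]
        simp
      · rw [pderiv_X_of_ne (by simpa using h3), map_zero, if_neg]
        exact fun h => h3 h.2
    · rw [pderiv_X_of_ne (by simpa using h2), if_neg]
      · simp
      · exact fun h => h2 h.1
  have h4 : d2 (Sum.inl (i, j)) (Sum.inr (j', l)) (prodEntry F i' l') =
      ∑ k, d2 (Sum.inl (i, j)) (Sum.inr (j', l))
      (X (Sum.inl (i', k)) * X (Sum.inr (k, l')) : MvPolynomial (Va M) F) := by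
    unfold d2 prodEntry
    simp only [map_sum]
  rw [h4, Finset.sum_congr rfl fun k _ => h1 k, Finset.sum_eq_single j]
  · simp only [Prod.mk.injEq]
    congr 1
    simp only [eq_iff_iff]
    constructor
    · rintro ⟨⟨h1, -⟩, h2, h3⟩
      exact ⟨h2, h3.symm, h1.symm⟩
    · rintro ⟨h1, h2, h3⟩
      exact ⟨⟨h3.symm, trivial⟩, h1, h2.symm⟩
  · intro k _ hk
    rw [if_neg]
    simp [hk]
  · simp

theorem isMM_circ (hC : Computes C val out) : IsMM (cA C val) (cB' C val) (cC C val out) := by
  classical
  intro i j j' l l' i'
  have h1 := d2_sum hC.1 (x := Sum.inl (i, j)) (y := Sum.inr (j', l)) (out i' l')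
  rw [hC.2, d2_entry] at h1
  rw [h1]
  have h2 : ∀ h, prop C val (out i' l') h * mus C val (Sum.inl (i, j)) (Sum.inr (j', l)) h =
      ∑ z, if C.lab h = .mul ∧ z ∈ C.args h then d1 (Sum.inl (i, j)) (val z) *
        (((C.args h).count z : F) * d1 (Sum.inr (j', l)) (oth C val h z)) *
        prop C val (out i' l') h else 0 := by
    intro h
    unfold mus
    cases hl : C.lab h with
    | var i => simp
    | const c => simp
    | add => simp
    | mul =>
      simp only [true_and]
      rw [Finset.sum_multiset_map_count, Finset.mul_sum]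
      rw [← Finset.sum_filter]
      have : (univ.filter fun z => z ∈ C.args h) = (C.args h).toFinset := by
        ext z
        simp
      rw [this]
      refine Finset.sum_congr rfl fun z _ => ?_
      rw [nsmul_eq_mul]
      ring
  rw [Finset.sum_congr rfl fun h _ => h2 h]
  rw [← Fintype.sum_prod_type' fun h z => if C.lab h = .mul ∧ z ∈ C.args h then
    d1 (Sum.inl (i, j)) (val z) * (((C.args h).count z : F) * d1 (Sum.inr (j', l)) (oth C val h z)) *
        prop C val (out i' l') h else 0]
  rw [← Finset.sum_filter]
  rw [Finset.sum_subtype (univ.filter fun w : G × G => C.lab w.1 = .mul ∧ w.2 ∈ C.args w.1)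
    (p := fun w => C.lab w.1 = .mul ∧ w.2 ∈ C.args w.1) (by simp)
    (fun w => d1 (Sum.inl (i, j)) (val w.2) * (((C.args w.1).count w.2 : F) *
      d1 (Sum.inr (j', l)) (oth C val w.1 w.2)) * prop C val (out i' l') w.1)]
  rfl

theorem lab_mul {V : Type} {C : Circ V F G} {s : V → V} {π : Equiv.Perm G} (hπ : IsAut C s π)
    (g : G) : C.lab (π g) = .mul ↔ C.lab g = .mul := by
  rw [(hπ g).1]
  cases C.lab g <;> simp [Lab.relabel]

/-- the action of an automorphism on the wires -/
noncomputable def wp {V : Type} {C : Circ V F G} {s : V → V} {π : Equiv.Perm G}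
    (hπ : IsAut C s π) : Equiv.Perm (Wr C) :=
  (Equiv.prodCongr π π).subtypeEquiv fun w => by
    show _ ↔ C.lab (π w.1) = .mul ∧ π w.2 ∈ C.args (π w.1)
    rw [lab_mul hπ, (hπ _).2, Multiset.mem_map_of_injective π.injective]

theorem wp_fst {V : Type} {C : Circ V F G} {s : V → V} {π : Equiv.Perm G}
    (hπ : IsAut C s π) (t : Wr C) : (wp hπ t).1.1 = π t.1.1 := rfl

theorem wp_snd {V : Type} {C : Circ V F G} {s : V → V} {π : Equiv.Perm G}
    (hπ : IsAut C s π) (t : Wr C) : (wp hπ t).1.2 = π t.1.2 := rfl

theorem cA_aut (hC : IsVal C val) {s : Va M → Va M} (hs : Function.Injective s)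
    {π : Equiv.Perm G} (hπ : IsAut C s π) (t : Wr C) {i j i' j' : M}
    (h : s (Sum.inl (i, j)) = Sum.inl (i', j')) :
    cA C val (wp hπ t) i' j' = cA C val t i j := by
  simp only [cA, Matrix.of_apply, wp_snd]
  rw [val_aut hC hπ, ← h, d1_rename s hs]

theorem cB_aut (hC : IsVal C val) {s : Va M → Va M} (hs : Function.Injective s)
    {π : Equiv.Perm G} (hπ : IsAut C s π) (t : Wr C) {j l j' l' : M}
    (h : s (Sum.inr (j, l)) = Sum.inr (j', l')) :
    cB' C val (wp hπ t) j' l' = cB' C val t j l := by
  classical
  simp only [cB', Matrix.of_apply, wp_snd, wp_fst]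
  rw [oth_aut hC hπ, ← h, d1_rename s hs, (hπ _).2, Multiset.count_map_eq_count' _ _ π.injective]

theorem cC_aut (hC : IsVal C val) {s : Va M → Va M}
    {π : Equiv.Perm G} (hπ : IsAut C s π) (t : Wr C) {l i l' i' : M}
    (h : π (out i l) = out i' l') :
    cC C val out (wp hπ t) l' i' = cC C val out t l i := by
  simp only [cC, Matrix.of_apply, wp_fst]
  rw [← h, prop_aut hC hπ]

theorem sand_inj {f g h : M → M} (hf : Function.Injective f) (hg : Function.Injective g)
    (hh : Function.Injective h) : Function.Injective (sand f g h) := by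
  rintro (⟨p, q⟩ | ⟨p, q⟩) (⟨p', q'⟩ | ⟨p', q'⟩) e
  · simp only [sand, Sum.inl.injEq, Prod.mk.injEq] at e
    rw [hf e.1, hg e.2]
  · simp [sand] at e
  · simp [sand] at e
  · simp only [sand, Sum.inr.injEq, Prod.mk.injEq] at e
    rw [hg e.1, hh e.2]

theorem row_circ (hC : IsVal C val) (f : Equiv.Perm M) (hf : Symm C out f id id) :
    RowInv (cA C val) (cB' C val) (cC C val out) (pg F f) := by
  obtain ⟨π, hπ, ho⟩ := hf
  have hs : Function.Injective (sand f id id : Va M → Va M) :=
    sand_inj f.injective Function.injective_id Function.injective_id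
  refine ⟨wp hπ, fun t i j j' l l' i' => ?_⟩
  rw [pg_inv_val, mul_pm]
  rw [show (pg F f).1 = pm F f from rfl, pm_mul]
  rw [cA_aut hC hs hπ t (i := f⁻¹ i) (j := j) (by simp [sand]),
    cB_aut hC hs hπ t (j := j') (l := l) (by simp [sand]),
    cC_aut hC hπ t (l := l') (i := f⁻¹ i') (by simp [ho])]

theorem mid_circ (hC : IsVal C val) (f : Equiv.Perm M) (hf : Symm C out id f id) :
    MidInv (cA C val) (cB' C val) (cC C val out) (pg F f) := by
  obtain ⟨π, hπ, ho⟩ := hf
  have hs : Function.Injective (sand id f id : Va M → Va M) :=
    sand_inj Function.injective_id f.injective Function.injective_id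
  refine ⟨wp hπ, fun t i j j' l l' i' => ?_⟩
  rw [pg_inv_val, mul_pm]
  rw [show (pg F f).1 = pm F f from rfl, pm_mul]
  rw [cA_aut hC hs hπ t (i := i) (j := f⁻¹ j) (by simp [sand]),
    cB_aut hC hs hπ t (j := f⁻¹ j') (l := l) (by simp [sand]),
    cC_aut hC hπ t (l := l') (i := i') (by simp [ho])]

/-- transposed decompositions -/
theorem isMM_tr {K I J L T : Type*} [Field K] [DecidableEq I] [DecidableEq J] [DecidableEq L]
    [Fintype T] {a : T → Matrix I J K} {b : T → Matrix J L K} {c : T → Matrix L I K}
    (h : IsMM a b c) :
    IsMM (fun t => (b t)ᵀ) (fun t => (a t)ᵀ) (fun t => (c t)ᵀ) := by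
  intro l j' j i i' l'
  have := h i j j' l l' i'
  simp only [Matrix.transpose_apply]
  rw [show (if j' = j ∧ i = i' ∧ l = l' then (1 : K) else 0) =
    if j = j' ∧ l = l' ∧ i = i' then 1 else 0 by congr 1; simp only [eq_iff_iff]; tauto, ← this]
  refine Finset.sum_congr rfl fun t _ => ?_
  ring

theorem col_circ (hC : IsVal C val) (f : Equiv.Perm M) (hf : Symm C out id id f) :
    RowInv (fun t => (cB' C val t)ᵀ) (fun t => (cA C val t)ᵀ) (fun t => (cC C val out t)ᵀ)
      (pg F f) := by
  obtain ⟨π, hπ, ho⟩ := hf
  have hs : Function.Injective (sand id id f : Va M → Va M) :=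
    sand_inj Function.injective_id Function.injective_id f.injective
  refine ⟨wp hπ, fun t l j' j i i' l' => ?_⟩
  rw [pg_inv_val, mul_pm]
  rw [show (pg F f).1 = pm F f from rfl, pm_mul]
  simp only [Matrix.transpose_apply]
  rw [cA_aut hC hs hπ t (i := i) (j := j) (by simp [sand]),
    cB_aut hC hs hπ t (j := j') (l := f⁻¹ l) (by simp [sand]),
    cC_aut hC hπ t (l := f⁻¹ l') (i := i') (by simp [ho])]

/-- The number of wires into product gates (pairs of a product gate and one of its arguments). -/
noncomputable def mulWires {V : Type} (C : Circ V F G) : ℕ :=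
  Nat.card {w : G × G // C.lab w.1 = .mul ∧ w.2 ∈ C.args w.1}

/-- The number of product gates. -/
noncomputable def mulGates {V : Type} (C : Circ V F G) : ℕ := Nat.card {g : G // C.lab g = .mul}

theorem card_wr {V : Type} (C : Circ V F G) : Fintype.card (Wr C) = mulWires C := by
  rw [mulWires, Nat.card_eq_fintype_card]

theorem wires_le {V : Type} (C : Circ V F G) (d : ℕ)
    (h : ∀ g, C.lab g = .mul → (C.args g).card ≤ d) : mulWires C ≤ mulGates C * d := by
  classical
  let ι : {w : G × G // C.lab w.1 = .mul ∧ w.2 ∈ C.args w.1} → {g : G // C.lab g = .mul} × Fin d :=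
    fun w => (⟨w.1.1, w.2.1⟩, ⟨(C.args w.1.1).toList.idxOf w.1.2, by
      refine lt_of_lt_of_le ?_ (h w.1.1 w.2.1)
      rw [← Multiset.length_toList]
      exact List.idxOf_lt_length_of_mem (Multiset.mem_toList.mpr w.2.2)⟩)
  have hι : Function.Injective ι := by
    rintro ⟨⟨g, x⟩, h1, h2⟩ ⟨⟨g', x'⟩, h1', h2'⟩ e
    have e1 : g = g' := congrArg (fun z => z.1.1) e
    subst e1
    have e2 : (C.args g).toList.idxOf x = (C.args g).toList.idxOf x' :=
      congrArg (fun z => (z.2 : ℕ)) e
    have h3 : x ∈ (C.args g).toList := Multiset.mem_toList.mpr h2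
    have h4 := (List.idxOf_inj h3).mp e2
    subst h4
    rfl
  have := Nat.card_le_card_of_injective ι hι
  rw [Nat.card_prod, Nat.card_eq_fintype_card (α := Fin d), Fintype.card_fin] at this
  exact this

end dec

end Pool.Agent.TH2.MS
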