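import Pool.Agent.TH2.MS.Second

set_option autoImplicit false
set_option linter.unusedSectionVars false

/-!
# The lower bound
-/

namespace Pool.Agent.TH2.MS

open Finset Matrix

variable {K : Type*} [Field K]
variable {Λ Θ : Type*} [Fintype Λ] [DecidableEq Λ] [Fintype Θ] [DecidableEq Θ]

theorem core (d m : Λ → ℕ) (e p : Θ → ℕ) {s : ℕ} {T : Type*} [Fintype T]
    {a : T → Matrix (Ix d m) (Ix e p) K} {b : T → Matrix (Ix e p) (Fin s) K}
    {c : T → Matrix (Fin s) (Ix d m) K} (h : IsMM a b c)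
    (G : Set (GL (Ix d m) K)) (hG : ∀ X : Matrix (Ix d m) (Ix d m) K,
      (∀ g ∈ G, g.1 * X = X * g.1) → Blk d m X) (hGi : ∀ g ∈ G, RowInv a b c g)
    (H : Set (GL (Ix e p) K)) (hH : ∀ X : Matrix (Ix e p) (Ix e p) K,
      (∀ h ∈ H, h.1 * X = X * h.1) → Blk e p X) (hHi : ∀ h ∈ H, MidInv a b c h) :
    ∑ x, ∑ z, d x * e z * rk K (m x) (p z) s ≤ Fintype.card T := by
  classical
  choose Y hY1 hY2 using fun β j l => hG _ fun g hg => row_comm (hGi g hg) β j l
  let y : ∀ x : Λ, Matrix (Ix e p) (Fin s) K →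
      Matrix (Ix e p × Fin (m x)) (Fin (m x) × Fin s) K := fun x β =>
    Matrix.of fun r q => Y β r.1 q.2 x r.2 q.1
  have hblk : ∀ β, ∑ x, d x * (y x β).rank ≤ (Phi a b c β).rank := by
    intro β
    apply rank_blocks
    · intro j l x k k' u u'
      exact hY1 β j l x k k' u u'
    · intro j l x x' u u' hx
      exact hY2 β j l x x' u u' hx
  have hsec : ∀ x, d x * ∑ z, e z * rk K (m x) (p z) s ≤
      d x * ∑ β ∈ Bs a b c, (y x β).rank := by
    intro x
    rcases Nat.eq_zero_or_pos (d x) with h0 | h0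
    · rw [h0]; simp
    refine Nat.mul_le_mul_left _ ?_
    let k0 : Fin (d x) := ⟨0, h0⟩
    have hy : ∀ β j i i' l, y x β (j, i) (i', l) = Phi a b c β (j, ⟨x, k0, i⟩) (⟨x, k0, i'⟩, l) := by
      intro β j i i' l
      have := hY1 β j l x k0 k0 i i'
      rw [Matrix.of_apply, if_pos rfl] at this
      rw [this]
      rfl
    refine second e p H hH (Bs a b c) (y x) ?_ ?_ ?_ ?_ ?_
    · intro i j j' l l' i'
      have h1 := phi_sum h (⟨x, k0, i⟩ : Ix d m) j j' l l' ⟨x, k0, i'⟩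
      have e0 : (if j = j' ∧ l = l' ∧ (⟨x, k0, i⟩ : Ix d m) = ⟨x, k0, i'⟩ then (1 : K) else 0) =
          if j = j' ∧ l = l' ∧ i = i' then 1 else 0 := by simp
      rw [← e0, ← h1]
      refine Finset.sum_congr rfl fun β _ => ?_
      rw [hy]
    · intro g hg β hβ
      obtain ⟨π, hπ⟩ := hHi g hg
      exact act_mem hπ hβ
    · intro g hg β hβ β' hβ' e
      obtain ⟨π, hπ⟩ := hHi g hg
      exact act_inj' hπ hβ hβ' e
    · intro g hg β' hβ'
      obtain ⟨π, hπ⟩ := hHi g hg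
      exact act_surj hπ hβ'
    · intro g hg β hβ i j l i'
      obtain ⟨π, hπ⟩ := hHi g hg
      have := mid_phi hπ hβ ⟨x, k0, i⟩ j l ⟨x, k0, i'⟩
      simp only [hy]
      exact this
  calc ∑ x, ∑ z, d x * e z * rk K (m x) (p z) s
      = ∑ x, d x * ∑ z, e z * rk K (m x) (p z) s := by
        refine Finset.sum_congr rfl fun x _ => ?_
        rw [Finset.mul_sum]
        refine Finset.sum_congr rfl fun z _ => ?_
        ring
    _ ≤ ∑ x, d x * ∑ β ∈ Bs a b c, (y x β).rank := Finset.sum_le_sum fun x _ => hsec x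
    _ = ∑ β ∈ Bs a b c, ∑ x, d x * (y x β).rank := by
        rw [Finset.sum_comm]
        refine Finset.sum_congr rfl fun x _ => ?_
        rw [Finset.mul_sum]
    _ ≤ ∑ β ∈ Bs a b c, (cl a b c β).card :=
        Finset.sum_le_sum fun β _ => (hblk β).trans (phi_rank β)
    _ = (T0 a b c).card := card_cl
    _ ≤ Fintype.card T := Finset.card_le_univ _

/-! ### Change of coordinates -/

section

variable {I J L T : Type*} [Fintype I] [DecidableEq I] [Fintype J] [DecidableEq J]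
  [DecidableEq L] [Fintype T]
  {a : T → Matrix I J K} {b : T → Matrix J L K} {c : T → Matrix L I K}

theorem isMM_row (h : IsMM a b c) (S : GL I K) :
    IsMM (fun t => S.1 * a t) b (fun t => c t * S⁻¹.1) := by
  intro i j j' l l' i'
  have e1 : ∑ t, (S.1 * a t) i j * b t j' l * (c t * S⁻¹.1) l' i' =
      ∑ i1, ∑ i2, S.1 i i1 * S⁻¹.1 i2 i' * ∑ t, a t i1 j * b t j' l * c t l' i2 := by
    simp only [Matrix.mul_apply, Finset.sum_mul, Finset.mul_sum]
    rw [Finset.sum_comm]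
    conv_rhs =>
      rw [Finset.sum_comm]
      enter [2, x]
      rw [Finset.sum_comm]
    refine Finset.sum_congr rfl fun x _ => Finset.sum_congr rfl fun t _ =>
      Finset.sum_congr rfl fun y _ => ?_
    ring
  rw [e1]
  simp only [h _ j j' l l' _]
  by_cases h1 : j = j'
  · by_cases h2 : l = l'
    · have h3 := congrFun (congrFun (show S.1 * S⁻¹.1 = (1 : Matrix I I K) by
        rw [← Units.val_mul, mul_inv_cancel, Units.val_one]) i) i'
      rw [Matrix.mul_apply, Matrix.one_apply] at h3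
      simp only [h1, h2, true_and]
      rw [← h3]
      refine Finset.sum_congr rfl fun x _ => ?_
      simp
    · simp [h2]
  · simp [h1]

theorem isMM_mid (h : IsMM a b c) (S : GL J K) :
    IsMM (fun t => a t * S⁻¹.1) (fun t => S.1 * b t) c := by
  intro i j j' l l' i'
  have e1 : ∑ t, (a t * S⁻¹.1) i j * (S.1 * b t) j' l * c t l' i' =
      ∑ j1, ∑ j2, S⁻¹.1 j1 j * S.1 j' j2 * ∑ t, a t i j1 * b t j2 l * c t l' i' := by
    simp only [Matrix.mul_apply, Finset.sum_mul, Finset.mul_sum]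
    rw [Finset.sum_comm]
    conv_rhs =>
      rw [Finset.sum_comm]
      enter [2, x]
      rw [Finset.sum_comm]
    refine Finset.sum_congr rfl fun x _ => Finset.sum_congr rfl fun t _ =>
      Finset.sum_congr rfl fun y _ => ?_
    ring
  rw [e1]
  simp only [h i _ _ l l' i']
  by_cases h1 : i = i'
  · by_cases h2 : l = l'
    · have h3 := congrFun (congrFun (show S.1 * S⁻¹.1 = (1 : Matrix J J K) by
        rw [← Units.val_mul, mul_inv_cancel, Units.val_one]) j') j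
      rw [Matrix.mul_apply, Matrix.one_apply] at h3
      simp only [h1, h2, and_true]
      have h4 : (if j = j' then (1 : K) else 0) = if j' = j then 1 else 0 := by
        simp only [eq_comm]
      rw [h4, ← h3]
      refine Finset.sum_congr rfl fun x _ => ?_
      simp [mul_comm]
    · simp [h2]
  · simp [h1]

variable [Fintype L]

theorem rowInv_row {g : GL I K} (hg : RowInv a b c g) (S : GL I K) :
    RowInv (fun t => S.1 * a t) b (fun t => c t * S⁻¹.1) (S * g * S⁻¹) := by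
  obtain ⟨π, hπ⟩ := hg
  refine ⟨π, fun t i j j' l l' i' => ?_⟩
  have e1 : (S * g * S⁻¹).1 * (S.1 * a t) = S.1 * (g.1 * a t) := by
    rw [Units.val_mul, Units.val_mul, Matrix.mul_assoc, Matrix.mul_assoc, ← Matrix.mul_assoc S⁻¹.1,
      ← Units.val_mul S⁻¹, inv_mul_cancel, Units.val_one, Matrix.one_mul]
  have e2 : c t * S⁻¹.1 * (S * g * S⁻¹)⁻¹.1 = c t * g⁻¹.1 * S⁻¹.1 := by
    have : (S * g * S⁻¹)⁻¹ = S * g⁻¹ * S⁻¹ := by group
    rw [this, Units.val_mul, Units.val_mul, Matrix.mul_assoc, Matrix.mul_assoc,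
      ← Matrix.mul_assoc S⁻¹.1, ← Units.val_mul S⁻¹, inv_mul_cancel,
      Units.val_one, Matrix.one_mul, Matrix.mul_assoc]
  show ((S * g * S⁻¹).1 * (S.1 * a t)) i j * b t j' l * (c t * S⁻¹.1 * (S * g * S⁻¹)⁻¹.1) l' i' =
    (S.1 * a (π t)) i j * b (π t) j' l * (c (π t) * S⁻¹.1) l' i'
  rw [e1, e2]
  have e3 : ∀ (x x' : Matrix I J K) (z z' : Matrix L I K) (y y' : K),
      (∀ i1 i2, x i1 j * y * z l' i2 = x' i1 j * y' * z' l' i2) →
      (S.1 * x) i j * y * (z * S⁻¹.1) l' i' = (S.1 * x') i j * y' * (z' * S⁻¹.1) l' i' := by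
    intro x x' z z' y y' hxy
    simp only [Matrix.mul_apply, Finset.sum_mul, Finset.mul_sum]
    refine Finset.sum_congr rfl fun i1 _ => Finset.sum_congr rfl fun i2 _ => ?_
    linear_combination S.1 i i2 * S⁻¹.1 i1 i' * hxy i2 i1
  exact e3 _ _ _ _ _ _ fun i1 i2 => hπ t i1 j j' l l' i2

theorem midInv_mid {g : GL J K} (hg : MidInv a b c g) (S : GL J K) :
    MidInv (fun t => a t * S⁻¹.1) (fun t => S.1 * b t) c (S * g * S⁻¹) := by
  obtain ⟨π, hπ⟩ := hg
  refine ⟨π, fun t i j j' l l' i' => ?_⟩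
  have e1 : (S * g * S⁻¹).1 * (S.1 * b t) = S.1 * (g.1 * b t) := by
    rw [Units.val_mul, Units.val_mul, Matrix.mul_assoc, Matrix.mul_assoc, ← Matrix.mul_assoc S⁻¹.1,
      ← Units.val_mul S⁻¹, inv_mul_cancel, Units.val_one, Matrix.one_mul]
  have e2 : a t * S⁻¹.1 * (S * g * S⁻¹)⁻¹.1 = a t * g⁻¹.1 * S⁻¹.1 := by
    have : (S * g * S⁻¹)⁻¹ = S * g⁻¹ * S⁻¹ := by group
    rw [this, Units.val_mul, Units.val_mul, Matrix.mul_assoc, Matrix.mul_assoc,
      ← Matrix.mul_assoc S⁻¹.1, ← Units.val_mul S⁻¹, inv_mul_cancel,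
      Units.val_one, Matrix.one_mul, Matrix.mul_assoc]
  show (a t * S⁻¹.1 * (S * g * S⁻¹)⁻¹.1) i j * ((S * g * S⁻¹).1 * (S.1 * b t)) j' l * c t l' i' =
    (a (π t) * S⁻¹.1) i j * (S.1 * b (π t)) j' l * c (π t) l' i'
  rw [e1, e2]
  have e3 : ∀ (x x' : Matrix I J K) (z z' : Matrix J L K) (y y' : K),
      (∀ j1 j2, x i j1 * z j2 l * y = x' i j1 * z' j2 l * y') →
      (x * S⁻¹.1) i j * (S.1 * z) j' l * y = (x' * S⁻¹.1) i j * (S.1 * z') j' l * y' := by
    intro x x' z z' y y' hxy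
    simp only [Matrix.mul_apply, Finset.sum_mul, Finset.mul_sum]
    refine Finset.sum_congr rfl fun j1 _ => Finset.sum_congr rfl fun j2 _ => ?_
    linear_combination S.1 j' j1 * S⁻¹.1 j2 j * hxy j2 j1
  exact e3 _ _ _ _ _ _ fun j1 j2 => hπ t i j1 j2 l l' i'

theorem midInv_row {g : GL J K} (hg : MidInv a b c g) (S : GL I K) :
    MidInv (fun t => S.1 * a t) b (fun t => c t * S⁻¹.1) g := by
  obtain ⟨π, hπ⟩ := hg
  refine ⟨π, fun t i j j' l l' i' => ?_⟩
  show (S.1 * a t * g⁻¹.1) i j * (g.1 * b t) j' l * (c t * S⁻¹.1) l' i' =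
    (S.1 * a (π t)) i j * b (π t) j' l * (c (π t) * S⁻¹.1) l' i'
  rw [Matrix.mul_assoc S.1]
  have e3 : ∀ (x x' : Matrix I J K) (z z' : Matrix L I K) (y y' : K),
      (∀ i1 i2, x i1 j * y * z l' i2 = x' i1 j * y' * z' l' i2) →
      (S.1 * x) i j * y * (z * S⁻¹.1) l' i' = (S.1 * x') i j * y' * (z' * S⁻¹.1) l' i' := by
    intro x x' z z' y y' hxy
    simp only [Matrix.mul_apply (M := S.1), Matrix.mul_apply (N := S⁻¹.1), Finset.sum_mul,
      Finset.mul_sum]
    refine Finset.sum_congr rfl fun i1 _ => Finset.sum_congr rfl fun i2 _ => ?_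
    linear_combination S.1 i i2 * S⁻¹.1 i1 i' * hxy i2 i1
  exact e3 _ _ _ _ _ _ fun i1 i2 => hπ t i1 j j' l l' i2

theorem rowInv_mid {g : GL I K} (hg : RowInv a b c g) (S : GL J K) :
    RowInv (fun t => a t * S⁻¹.1) (fun t => S.1 * b t) c g := by
  obtain ⟨π, hπ⟩ := hg
  refine ⟨π, fun t i j j' l l' i' => ?_⟩
  show (g.1 * (a t * S⁻¹.1)) i j * (S.1 * b t) j' l * (c t * g⁻¹.1) l' i' =
    (a (π t) * S⁻¹.1) i j * (S.1 * b (π t)) j' l * c (π t) l' i'
  rw [← Matrix.mul_assoc g.1]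
  have e3 : ∀ (x x' : Matrix I J K) (z z' : Matrix J L K) (y y' : K),
      (∀ j1 j2, x i j1 * z j2 l * y = x' i j1 * z' j2 l * y') →
      (x * S⁻¹.1) i j * (S.1 * z) j' l * y = (x' * S⁻¹.1) i j * (S.1 * z') j' l * y' := by
    intro x x' z z' y y' hxy
    simp only [Matrix.mul_apply (N := S⁻¹.1), Matrix.mul_apply (M := S.1), Finset.sum_mul,
      Finset.mul_sum]
    refine Finset.sum_congr rfl fun j1 _ => Finset.sum_congr rfl fun j2 _ => ?_
    linear_combination S.1 j' j1 * S⁻¹.1 j2 j * hxy j2 j1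
  exact e3 _ _ _ _ _ _ fun j1 j2 => hπ t i j1 j2 l l' i'

end

end Pool.Agent.TH2.MS
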