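import Pool.Agent.TH2.MS.Eig

set_option autoImplicit false
set_option linter.unusedSectionVars false

/-!
# Extension of scalars, one symmetry, cyclic shifts, irreducible groups
-/

namespace Pool.Agent.TH2.MS

open Finset Matrix Module

theorem rk_mono (k : Type*) [Field k] {m' m : ℕ} (h : m' ≤ m) (q s : ℕ) :
    rk k m' q s ≤ rk k m q s := by
  obtain ⟨a, b, c, h1⟩ := exists_mm k m q s
  let f : Fin m' → Fin m := Fin.castLE h
  have h2 : IsMM (fun t => (a t).submatrix f id) b (fun t => (c t).submatrix id f) := by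
    intro i j j' l l' i'
    have := h1 (f i) j j' l l' (f i')
    simp only [Matrix.submatrix_apply, id]
    rw [this]
    simp [f]
  have := rk_le h2
  rwa [Fintype.card_fin] at this

theorem rk_zero (k : Type*) [Field k] (q s : ℕ) : rk k 0 q s = 0 := by
  have h2 : IsMM (T := Fin 0) (fun _ => (0 : Matrix (Fin 0) (Fin q) k))
      (fun _ => (0 : Matrix (Fin q) (Fin s) k)) (fun _ => (0 : Matrix (Fin s) (Fin 0) k)) := by
    intro i
    exact i.elim0
  have := rk_le h2
  simpa using this

section cyclic

variable {k : Type*} [Field k]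

theorem rk_rot (p q s : ℕ) : rk k q s p ≤ rk k p q s := by
  obtain ⟨a, b, c, h1⟩ := exists_mm k p q s
  have h2 : IsMM b c a := by
    intro i j j' l l' i'
    have := h1 l' i' i j j' l
    rw [show (if j = j' ∧ l = l' ∧ i = i' then (1 : k) else 0) =
      if i' = i ∧ j = j' ∧ l' = l then 1 else 0 by congr 1; simp only [eq_iff_iff]; tauto, ← this]
    refine Finset.sum_congr rfl fun t _ => ?_
    ring
  have := rk_le h2
  rwa [Fintype.card_fin] at this

end cyclic

section map

variable {K k : Type*} [Field K] [Field k] (φ : K →+* k) {I J L T : Type*} [Fintype I]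
  [DecidableEq I] [Fintype J] [DecidableEq J] [DecidableEq L] [Fintype T]
  {a : T → Matrix I J K} {b : T → Matrix J L K} {c : T → Matrix L I K}

theorem isMM_map (h : IsMM a b c) :
    IsMM (fun t => (a t).map φ) (fun t => (b t).map φ) (fun t => (c t).map φ) := by
  intro i j j' l l' i'
  have := congrArg φ (h i j j' l l' i')
  rw [map_sum] at this
  simp only [map_mul] at this
  simp only [Matrix.map_apply]
  rw [this]
  split_ifs <;> simp

theorem rowInv_map {g : GL I K} (hg : RowInv a b c g) :
    RowInv (fun t => (a t).map φ) (fun t => (b t).map φ) (fun t => (c t).map φ)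
      (Matrix.GeneralLinearGroup.map φ g) := by
  obtain ⟨π, hπ⟩ := hg
  refine ⟨π, fun t i j j' l l' i' => ?_⟩
  have := congrArg φ (hπ t i j j' l l' i')
  simp only [map_mul] at this
  have e1 : (Matrix.GeneralLinearGroup.map φ g).1 = g.1.map φ := rfl
  have e2 : (Matrix.GeneralLinearGroup.map φ g)⁻¹.1 = g⁻¹.1.map φ := rfl
  rw [e1, e2, ← Matrix.map_mul, ← Matrix.map_mul]
  exact this

theorem midInv_map {g : GL J K} (hg : MidInv a b c g) :
    MidInv (fun t => (a t).map φ) (fun t => (b t).map φ) (fun t => (c t).map φ)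
      (Matrix.GeneralLinearGroup.map φ g) := by
  obtain ⟨π, hπ⟩ := hg
  refine ⟨π, fun t i j j' l l' i' => ?_⟩
  have := congrArg φ (hπ t i j j' l l' i')
  simp only [map_mul] at this
  have e1 : (Matrix.GeneralLinearGroup.map φ g).1 = g.1.map φ := rfl
  have e2 : (Matrix.GeneralLinearGroup.map φ g)⁻¹.1 = g⁻¹.1.map φ := rfl
  rw [e1, e2, ← Matrix.map_mul, ← Matrix.map_mul]
  exact this

end map

/-- The sum of the ranks of `⟨m, q, s⟩` over the distinct eigenvalues of `M` in the algebraic
closure, where `m` is the algebraic multiplicity of the eigenvalue. -/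
noncomputable def spec {K I : Type*} [Field K] [Fintype I] [DecidableEq I] (M : Matrix I I K)
    (R : ℕ → ℕ) : ℕ :=
  ∑ μ : Sp (M.map (algebraMap K (AlgebraicClosure K))), R (mu _ μ)

section one

variable {K : Type*} [Field K] {I J L T : Type*} [Fintype I]
  [DecidableEq I] [Fintype J] [DecidableEq J] [Fintype L] [DecidableEq L] [Fintype T]
  {a : T → Matrix I J K} {b : T → Matrix J L K} {c : T → Matrix L I K}

theorem row_one (h : IsMM a b c) {g : GL I K} (hg : RowInv a b c g) :
    spec g.1 (fun m => rk (AlgebraicClosure K) m (Fintype.card J) (Fintype.card L)) ≤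
      Fintype.card T := by
  obtain ⟨e, S, he⟩ := exists_isotypic
    (Matrix.GeneralLinearGroup.map (algebraMap K (AlgebraicClosure K)) g)
  have h1 := lower_row _ _ (isMM_map (algebraMap K (AlgebraicClosure K)) h) _ e S he
    (by
      intro g' hg'
      rw [Set.mem_singleton_iff] at hg'
      subst hg'
      exact rowInv_map _ hg)
  simp only [one_mul] at h1
  exact h1

theorem mid_one (h : IsMM a b c) {g : GL J K} (hg : MidInv a b c g) :
    spec g.1 (fun m => rk (AlgebraicClosure K) (Fintype.card I) m (Fintype.card L)) ≤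
      Fintype.card T := by
  obtain ⟨e, S, he⟩ := exists_isotypic
    (Matrix.GeneralLinearGroup.map (algebraMap K (AlgebraicClosure K)) g)
  have h1 := lower_mid _ _ (isMM_map (algebraMap K (AlgebraicClosure K)) h) _ e S he
    (by
      intro g' hg'
      rw [Set.mem_singleton_iff] at hg'
      subst hg'
      exact midInv_map _ hg)
  simp only [one_mul] at h1
  exact h1

/-- The double sum of the ranks of `⟨m, m', s⟩` over the distinct eigenvalues of `M` and of `M'`, where
`m` and `m'` are the algebraic multiplicities. -/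
noncomputable def spec2 (M : Matrix I I K) (M' : Matrix J J K) (R : ℕ → ℕ → ℕ) : ℕ :=
  ∑ μ : Sp (M.map (algebraMap K (AlgebraicClosure K))),
    ∑ ν : Sp (M'.map (algebraMap K (AlgebraicClosure K))), R (mu _ μ) (mu _ ν)

theorem row_mid_one (h : IsMM a b c) {g : GL I K} (hg : RowInv a b c g) {g' : GL J K}
    (hg' : MidInv a b c g') :
    spec2 g.1 g'.1 (fun m m' => rk (AlgebraicClosure K) m m' (Fintype.card L)) ≤
      Fintype.card T := by
  obtain ⟨e, S, he⟩ := exists_isotypic
    (Matrix.GeneralLinearGroup.map (algebraMap K (AlgebraicClosure K)) g)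
  obtain ⟨e', S', he'⟩ := exists_isotypic
    (Matrix.GeneralLinearGroup.map (algebraMap K (AlgebraicClosure K)) g')
  have h1 := lower _ _ _ _ (isMM_map (algebraMap K (AlgebraicClosure K)) h) _ _ e e' S S' he he'
    (by
      intro g1 hg1
      rw [Set.mem_singleton_iff] at hg1
      subst hg1
      exact rowInv_map _ hg)
    (by
      intro g1 hg1
      rw [Set.mem_singleton_iff] at hg1
      subst hg1
      exact midInv_map _ hg')
  simp only [one_mul] at h1
  exact h1

/-- the number of distinct eigenvalues in the algebraic closure -/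
noncomputable def neig (M : Matrix I I K) : ℕ :=
  Fintype.card (Sp (M.map (algebraMap K (AlgebraicClosure K))))

theorem one_le_mu {k : Type*} [Field k] [IsAlgClosed k] (M : Matrix I I k) (μ : Sp M) :
    1 ≤ mu M μ := by
  classical
  have h1 := μ.2
  rw [← Multiset.one_le_count_iff_mem, Polynomial.count_roots] at h1
  exact h1

theorem neig_le (M : Matrix I I K) (R : ℕ → ℕ) (hR : Monotone R) : neig M * R 1 ≤ spec M R := by
  unfold neig spec
  rw [← smul_eq_mul, ← Finset.card_univ, ← Finset.sum_const]
  exact Finset.sum_le_sum fun μ _ => hR (one_le_mu _ μ)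

theorem row_neig (h : IsMM a b c) {g : GL I K} (hg : RowInv a b c g) :
    neig g.1 * (Fintype.card J * Fintype.card L) ≤ Fintype.card T := by
  refine le_trans ?_ (row_one h hg)
  refine le_trans (Nat.mul_le_mul_left _ (le_rk_one (AlgebraicClosure K) _ _)) ?_
  exact neig_le g.1 (fun m => rk (AlgebraicClosure K) m (Fintype.card J) (Fintype.card L))
    fun m m' hm => rk_mono _ hm _ _

/-- groups with only scalars in the commutant -/
theorem isotypic_scalar (G : Set (GL I K))
    (hG : ∀ X : Matrix I I K, (∀ g ∈ G, g.1 * X = X * g.1) → ∃ z : K, X = z • 1) :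
    Isotypic (K := K) (Λ := Unit) (fun _ => Fintype.card I) (fun _ => 1)
      ((Fintype.equivFin I).trans
        ⟨fun j => ⟨(), j, 0⟩, fun x => x.2.1, fun j => rfl, fun x => by
          obtain ⟨⟨⟩, k, j⟩ := x
          have : j = 0 := Subsingleton.elim _ _
          subst this
          rfl⟩) 1 G := by
  intro X hX
  obtain ⟨z, hz⟩ := hG X (by
    intro g hg
    have := hX g hg
    simpa using this)
  refine ⟨fun _ => Matrix.of fun _ _ => z, ?_, ?_⟩
  · rintro ⟨⟩ k k' u u'
    have e1 : u = 0 := Subsingleton.elim _ _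
    have e2 : u' = 0 := Subsingleton.elim _ _
    subst e1 e2
    rw [hz, Matrix.smul_apply, Matrix.one_apply]
    by_cases hk : k = k'
    · subst hk
      simp
    · rw [if_neg hk, if_neg]
      · simp
      · intro hh
        apply hk
        simpa using hh
  · intro x x' _ _ hx
    exact absurd (Subsingleton.elim x x') hx

theorem row_irr (h : IsMM a b c) (G : Set (GL I K))
    (hG : ∀ X : Matrix I I K, (∀ g ∈ G, g.1 * X = X * g.1) → ∃ z : K, X = z • 1)
    (hGi : ∀ g ∈ G, RowInv a b c g) :
    Fintype.card I * (Fintype.card J * Fintype.card L) ≤ Fintype.card T := by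
  have h1 := lower_row _ _ h G _ 1 (isotypic_scalar G hG) hGi
  simp only [Finset.univ_unique, Finset.sum_const, Finset.card_singleton, one_smul] at h1
  exact (Nat.mul_le_mul_left _ (le_rk_one K _ _)).trans h1

end one

/-! ### Permutations -/

section perm

variable (K : Type*) [Field K] {I : Type*} [Fintype I] [DecidableEq I]

/-- the matrix of a permutation -/
def pm (σ : Equiv.Perm I) : Matrix I I K := Matrix.of fun i j => if i = σ j then 1 else 0

theorem pm_mul {J : Type*} (σ : Equiv.Perm I) (A : Matrix I J K) (i : I) (j : J) :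
    (pm K σ * A) i j = A (σ⁻¹ i) j := by
  rw [Matrix.mul_apply, Finset.sum_eq_single (σ⁻¹ i)]
  · simp [pm]
  · intro x _ hx
    have : i ≠ σ x := by
      rintro rfl
      exact hx (by simp)
    simp [pm, this]
  · simp

theorem mul_pm {J : Type*} (σ : Equiv.Perm I) (A : Matrix J I K) (i : I) (j : J) :
    (A * pm K σ) j i = A j (σ i) := by
  rw [Matrix.mul_apply, Finset.sum_eq_single (σ i)]
  · simp [pm]
  · intro x _ hx
    simp [pm, hx]
  · simp

/-- the invertible matrix of a permutation -/
def pg (σ : Equiv.Perm I) : GL I K where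
  val := pm K σ
  inv := pm K σ⁻¹
  val_inv := by
    ext i j
    rw [pm_mul, Matrix.one_apply]
    simp [pm]
  inv_val := by
    ext i j
    rw [pm_mul, Matrix.one_apply]
    simp [pm]

theorem pg_inv_val (σ : Equiv.Perm I) : (pg K σ)⁻¹.1 = pm K σ⁻¹ := rfl

variable {K}

theorem pm_map {k : Type*} [Field k] (φ : K →+* k) (σ : Equiv.Perm I) :
    (pm K σ).map φ = pm k σ := by
  ext i j
  simp only [Matrix.map_apply, pm, Matrix.of_apply]
  split_ifs <;> simp

theorem le_mult {k : Type*} [Field k] [IsAlgClosed k] {r : ℕ} [NeZero r] {U : Type*} [Fintype U]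
    (σ : Equiv.Perm I) (e : ZMod r × U ≃ I) (he : ∀ x u, σ (e (x, u)) = e (x + 1, u)) {μ : k}
    (hμ : μ ^ r = 1) : Fintype.card U ≤ (pm k σ).charpoly.rootMultiplicity μ := by
  classical
  rw [← finrank_gen]
  let χ := AddChar.zmodChar r hμ
  have h1 : χ 1 = μ := by
    have := AddChar.zmodChar_apply' hμ 1
    simpa using this
  let Φ : (U → k) →ₗ[k] (I → k) :=
    { toFun := fun w i => χ (-(e.symm i).1) * w (e.symm i).2
      map_add' := by
        intro w w'
        funext i
        simp [mul_add]
      map_smul' := by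
        intro z w
        funext i
        simp only [Pi.smul_apply, smul_eq_mul, RingHom.id_apply]
        ring }
  have hΦ : Function.Injective Φ := by
    intro w w' hw
    funext u
    have := congrFun hw (e (0, u))
    simpa [Φ] using this
  have hmem : ∀ w, Φ w ∈ (tl (pm k σ)).maxGenEigenspace μ := by
    intro w
    apply Module.End.eigenspace_le_maxGenEigenspace
    rw [Module.End.mem_eigenspace_iff]
    funext i
    obtain ⟨⟨x, u⟩, rfl⟩ := e.surjective i
    have h2 : tl (pm k σ) (Φ w) (e (x, u)) = Φ w (σ⁻¹ (e (x, u))) := by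
      rw [Matrix.toLin'_apply, Matrix.mulVec, dotProduct, Finset.sum_eq_single (σ⁻¹ (e (x, u)))]
      · simp [pm]
      · intro y _ hy
        have : e (x, u) ≠ σ y := by
          intro hh
          exact hy (by rw [hh]; simp)
        simp [pm, this]
      · simp
    have h3 : σ⁻¹ (e (x, u)) = e (x - 1, u) := by
      rw [Equiv.Perm.inv_eq_iff_eq, he, sub_add_cancel]
    rw [h2, h3, Pi.smul_apply, smul_eq_mul]
    show χ (-(e.symm (e (x - 1, u))).1) * w (e.symm (e (x - 1, u))).2 =
      μ * (χ (-(e.symm (e (x, u))).1) * w (e.symm (e (x, u))).2)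
    rw [Equiv.symm_apply_apply, Equiv.symm_apply_apply, neg_sub, sub_eq_add_neg,
      AddChar.map_add_eq_mul, h1]
    ring
  have := LinearMap.finrank_le_finrank_of_injective
    (f := Φ.codRestrict ((tl (pm k σ)).maxGenEigenspace μ) hmem)
    (by
      intro w w' hw
      exact hΦ (congrArg Subtype.val hw))
  rwa [Module.finrank_fintype_fun_eq_card] at this

theorem cyc_le {r : ℕ} (hr : (r : K) ≠ 0) {U : Type*} [Fintype U]
    (σ : Equiv.Perm I) (e : ZMod r × U ≃ I) (he : ∀ x u, σ (e (x, u)) = e (x + 1, u))
    (R : ℕ → ℕ) (hR : Monotone R) (hR0 : R 0 = 0) : r * R (Fintype.card U) ≤ spec (pm K σ) R := by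
  classical
  have hr0 : r ≠ 0 := by
    rintro rfl
    exact hr (by simp)
  have : NeZero r := ⟨hr0⟩
  rcases Nat.eq_zero_or_pos (Fintype.card U) with hU | hU
  · rw [hU, hR0]
    simp
  let k := AlgebraicClosure K
  have : NeZero (r : k) := ⟨by
    intro h0
    apply hr
    have : algebraMap K k (r : K) = 0 := by rw [map_natCast]; exact h0
    exact (map_eq_zero _).mp this⟩
  obtain ⟨ζ, hζ⟩ := HasEnoughRootsOfUnity.exists_primitiveRoot k r
  unfold spec
  rw [pm_map]
  have hmem : ∀ μ : k, μ ^ r = 1 → μ ∈ (pm k σ).charpoly.roots := by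
    intro μ hμ
    rw [← Multiset.one_le_count_iff_mem, Polynomial.count_roots]
    exact hU.trans_le (le_mult σ e he hμ)
  let ι : Fin r → Sp (pm k σ) := fun i => ⟨ζ ^ (i : ℕ), hmem _ (by
    rw [← pow_mul, mul_comm, pow_mul, hζ.pow_eq_one, one_pow])⟩
  have hι : Function.Injective ι := by
    intro i j hij
    have h1 : ζ ^ (i : ℕ) = ζ ^ (j : ℕ) := congrArg Subtype.val hij
    exact Fin.ext (hζ.pow_inj i.2 j.2 h1)
  calc r * R (Fintype.card U) = ∑ i : Fin r, R (Fintype.card U) := by
        rw [Finset.sum_const, Finset.card_univ, Fintype.card_fin, smul_eq_mul]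
    _ ≤ ∑ i : Fin r, R (mu _ (ι i)) := by
        refine Finset.sum_le_sum fun i _ => hR ?_
        exact le_mult σ e he (by
          show (ζ ^ (i : ℕ)) ^ r = 1
          rw [← pow_mul, mul_comm, pow_mul, hζ.pow_eq_one, one_pow])
    _ = ∑ μ ∈ univ.image ι, R (mu _ μ) := by
        rw [Finset.sum_image fun i _ j _ hij => hι hij]
    _ ≤ ∑ μ, R (mu _ μ) :=
        Finset.sum_le_sum_of_subset (Finset.subset_univ _)

end perm

end Pool.Agent.TH2.MS
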