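import Mathlib

set_option autoImplicit false

/-!
# Symmetries of matrix multiplication on one of the three spaces: definitions
-/

namespace Pool.Agent.TH2.MS

open Finset

variable {K : Type*} [Field K] {I J L T : Type*}

/-- The rank one tensors `a t ⊗ b t ⊗ c t` sum up to the tensor of the multiplication of `I × J`
matrices by `J × L` matrices. -/
def IsMM [Fintype T] [DecidableEq I] [DecidableEq J] [DecidableEq L] (a : T → Matrix I J K)
    (b : T → Matrix J L K) (c : T → Matrix L I K) : Prop :=
  ∀ i j j' l l' i', ∑ t, a t i j * b t j' l * c t l' i' =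
    if j = j' ∧ l = l' ∧ i = i' then 1 else 0

/-- The set of terms is invariant under the action of the invertible matrix `g` on the space of the
rows of the first factor (and of the product): `(A, B) ↦ (g A, B)`. -/
def RowInv [Fintype I] [DecidableEq I] (a : T → Matrix I J K) (b : T → Matrix J L K)
    (c : T → Matrix L I K) (g : GL I K) : Prop :=
  ∃ π : Equiv.Perm T, ∀ t i j j' l l' i',
    (g.1 * a t) i j * b t j' l * (c t * g⁻¹.1) l' i' = a (π t) i j * b (π t) j' l * c (π t) l' i'

/-- The set of terms is invariant under the action of the invertible matrix `h` on the space of the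
inner indices: `(A, B) ↦ (A h⁻¹, h B)`. -/
def MidInv [Fintype J] [DecidableEq J] (a : T → Matrix I J K) (b : T → Matrix J L K)
    (c : T → Matrix L I K) (h : GL J K) : Prop :=
  ∃ π : Equiv.Perm T, ∀ t i j j' l l' i',
    (a t * h⁻¹.1) i j * (h.1 * b t) j' l * c t l' i' = a (π t) i j * b (π t) j' l * c (π t) l' i'

/-- The rank of the tensor of the multiplication of `p × q` by `q × s` matrices over `K`. -/
noncomputable def rk (K : Type*) [Field K] (p q s : ℕ) : ℕ :=
  sInf {N | ∃ (a : Fin N → Matrix (Fin p) (Fin q) K) (b : Fin N → Matrix (Fin q) (Fin s) K)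
    (c : Fin N → Matrix (Fin s) (Fin p) K), IsMM a b c}

/-- The index set of a basis of a sum of spaces `K ^ d x ⊗ K ^ m x`. -/
abbrev Ix {Λ : Type*} (d m : Λ → ℕ) : Type _ := Σ x : Λ, Fin (d x) × Fin (m x)

/-- In suitable coordinates `S` the space is a sum of spaces `K ^ d x ⊗ K ^ m x` such that every matrix
that commutes with `G` is of the form `⊕ 1 ⊗ Y x`.  By Schur's lemma this holds if `G` acts on the `x`-th
summand by `ρ x ⊗ 1` with pairwise inequivalent absolutely irreducible representations `ρ x` of
dimensions `d x`. -/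
def Isotypic {Λ : Type*} [Fintype I] [DecidableEq I] (d m : Λ → ℕ) (e : I ≃ Ix d m) (S : GL I K)
    (G : Set (GL I K)) : Prop :=
  ∀ X : Matrix I I K, (∀ g ∈ G, (S * g * S⁻¹).1 * X = X * (S * g * S⁻¹).1) →
    ∃ Y : ∀ x : Λ, Matrix (Fin (m x)) (Fin (m x)) K,
      (∀ x k k' u u', X (e.symm ⟨x, k, u⟩) (e.symm ⟨x, k', u'⟩) = if k = k' then Y x u u' else 0) ∧
      ∀ x x' y y', x ≠ x' → X (e.symm ⟨x, y⟩) (e.symm ⟨x', y'⟩) = 0

end Pool.Agent.TH2.MS
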