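import Pool.Agent.TH2.MS.Upper

set_option autoImplicit false
set_option linter.unusedSectionVars false

/-!
# One symmetry: the commutant preserves the generalised eigenspaces
-/

namespace Pool.Agent.TH2.MS

open Finset Matrix Module

section closed

variable {k : Type*} [Field k] [IsAlgClosed k] {I : Type*} [Fintype I] [DecidableEq I]

/-- the distinct eigenvalues -/
abbrev Sp (M : Matrix I I k) : Type _ := {μ : k // μ ∈ M.charpoly.roots}

noncomputable instance (M : Matrix I I k) : Fintype (Sp M) := by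
  classical
  exact Fintype.subtype M.charpoly.roots.toFinset fun μ => Multiset.mem_toFinset

/-- the linear map of a matrix -/
noncomputable abbrev tl (M : Matrix I I k) : Module.End k (I → k) := Matrix.toLin' M

/-- the multiplicity of an eigenvalue -/
noncomputable abbrev mu (M : Matrix I I k) (μ : Sp M) : ℕ := M.charpoly.rootMultiplicity μ.1

theorem finrank_gen (M : Matrix I I k) (μ : k) :
    finrank k ((tl M).maxGenEigenspace μ) = M.charpoly.rootMultiplicity μ := by
  rw [LinearMap.finrank_maxGenEigenspace_eq, Matrix.charpoly_toLin']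

open Classical in
theorem isInternal_gen (M : Matrix I I k) :
    DirectSum.IsInternal fun μ : Sp M => (tl M).maxGenEigenspace μ.1 := by
  apply DirectSum.isInternal_submodule_of_iSupIndep_of_iSup_eq_top
  · exact (Module.End.independent_maxGenEigenspace _).comp Subtype.val_injective
  · rw [eq_top_iff, ← Module.End.iSup_maxGenEigenspace_eq_top (tl M)]
    refine iSup_le fun μ => ?_
    by_cases hμ : μ ∈ M.charpoly.roots
    · exact le_iSup (fun μ : Sp M => (tl M).maxGenEigenspace μ.1) ⟨μ, hμ⟩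
    · have h1 : M.charpoly.rootMultiplicity μ = 0 := by
        rw [← Multiset.count_eq_zero, Polynomial.count_roots] at hμ
        exact hμ
      rw [← finrank_gen, Submodule.finrank_eq_zero] at h1
      rw [h1]
      exact bot_le

theorem exists_isotypic (g : GL I k) :
    ∃ (e : I ≃ Ix (fun _ : Sp g.1 => 1) (mu g.1)) (S : GL I k),
      Isotypic (fun _ => 1) (mu g.1) e S {g} := by
  classical
  let f := tl g.1
  have hint := isInternal_gen g.1
  let v : ∀ μ : Sp g.1, Basis (Fin (mu g.1 μ)) k (f.maxGenEigenspace μ.1) := fun μ =>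
    (Module.finBasis k (f.maxGenEigenspace μ.1)).reindex (finCongr (finrank_gen g.1 μ.1))
  let B := hint.collectedBasis v
  let E : (Σ μ : Sp g.1, Fin (mu g.1 μ)) ≃ Ix (fun _ : Sp g.1 => 1) (mu g.1) :=
    Equiv.sigmaCongrRight fun μ => (Equiv.uniqueProd (Fin (mu g.1 μ)) (Fin 1)).symm
  let B' := B.reindex E
  have hcard : Fintype.card I = Fintype.card (Ix (fun _ : Sp g.1 => 1) (mu g.1)) := by
    rw [← Module.finrank_eq_card_basis B', ← Module.finrank_eq_card_basis (Pi.basisFun k I)]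
  let e : I ≃ Ix (fun _ : Sp g.1 => 1) (mu g.1) := Fintype.equivOfCardEq hcard
  let D := B'.reindex e.symm
  let S : GL I k :=
    ⟨D.toMatrix (Pi.basisFun k I), (Pi.basisFun k I).toMatrix D, D.toMatrix_mul_toMatrix_flip _,
      (Pi.basisFun k I).toMatrix_mul_toMatrix_flip _⟩
  have hS : (S * g * S⁻¹).1 = LinearMap.toMatrix D D f := by
    have h1 : g.1 = LinearMap.toMatrix (Pi.basisFun k I) (Pi.basisFun k I) f := by
      show g.1 = LinearMap.toMatrix' (Matrix.toLin' g.1)
      rw [LinearMap.toMatrix'_toLin']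
    show D.toMatrix (Pi.basisFun k I) * g.1 * (Pi.basisFun k I).toMatrix D = _
    rw [h1]
    exact basis_toMatrix_mul_linearMap_toMatrix_mul_basis_toMatrix _ _ _ _ f
  refine ⟨e, S, ?_⟩
  intro X hX
  have hX' := hX g rfl
  rw [hS] at hX'
  -- the linear map
  let φ := Matrix.toLin D D X
  have hφ : LinearMap.toMatrix D D φ = X := LinearMap.toMatrix_toLin _ _ _
  have hcomm : Commute f φ := by
    have h2 : LinearMap.toMatrix D D (f ∘ₗ φ) = LinearMap.toMatrix D D (φ ∘ₗ f) := by
      rw [LinearMap.toMatrix_comp D D D, LinearMap.toMatrix_comp D D D, hφ]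
      exact hX'
    exact (LinearMap.toMatrix D D).injective h2
  have key : ∀ μ μ' : Sp g.1, μ ≠ μ' → ∀ u : Fin (mu g.1 μ), ∀ u' : Fin (mu g.1 μ'),
      X (e.symm ⟨μ, 0, u⟩) (e.symm ⟨μ', 0, u'⟩) = 0 := by
    intro μ μ' hμ u u'
    have h3 : X (e.symm ⟨μ, 0, u⟩) (e.symm ⟨μ', 0, u'⟩) =
        D.repr (φ (D (e.symm ⟨μ', 0, u'⟩))) (e.symm ⟨μ, 0, u⟩) := by
      rw [← LinearMap.toMatrix_apply, hφ]
    rw [h3]
    have h4 : D (e.symm ⟨μ', 0, u'⟩) = B ⟨μ', u'⟩ := by
      show (B'.reindex e.symm) (e.symm ⟨μ', 0, u'⟩) = _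
      rw [Basis.reindex_apply, Equiv.symm_symm, Equiv.apply_symm_apply, Basis.reindex_apply]
      rfl
    have h5 : ∀ w, D.repr w (e.symm ⟨μ, 0, u⟩) = B.repr w ⟨μ, u⟩ := by
      intro w
      show (B'.reindex e.symm).repr w (e.symm ⟨μ, 0, u⟩) = _
      rw [Basis.repr_reindex_apply, Equiv.symm_symm, Equiv.apply_symm_apply,
        Basis.repr_reindex_apply]
      rfl
    rw [h4, h5]
    have h6 : B ⟨μ', u'⟩ ∈ f.maxGenEigenspace μ'.1 := hint.collectedBasis_mem v ⟨μ', u'⟩
    have h7 : φ (B ⟨μ', u'⟩) ∈ f.maxGenEigenspace μ'.1 :=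
      Module.End.mapsTo_maxGenEigenspace_of_comm hcomm μ'.1 h6
    exact hint.collectedBasis_repr_of_mem_ne v (Ne.symm hμ) h7
  refine ⟨fun μ => Matrix.of fun u u' => X (e.symm ⟨μ, 0, u⟩) (e.symm ⟨μ, 0, u'⟩), ?_, ?_⟩
  · intro μ k1 k2 u u'
    have e1 : k1 = 0 := Subsingleton.elim _ _
    have e2 : k2 = 0 := Subsingleton.elim _ _
    subst e1 e2
    rw [if_pos rfl]
    rfl
  · rintro μ μ' ⟨k1, u⟩ ⟨k2, u'⟩ hμ
    have e1 : k1 = 0 := Subsingleton.elim _ _
    have e2 : k2 = 0 := Subsingleton.elim _ _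
    subst e1 e2
    exact key μ μ' hμ u u'

end closed

end Pool.Agent.TH2.MS
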