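import Pool.Agent.TH2.MS.Circ

set_option autoImplicit false
set_option linter.unusedSectionVars false

/-!
# Lower bounds for circuits with one symmetry
-/

namespace Pool.Agent.TH2.MS

open Finset Matrix MvPolynomial Pool.Agent.H522R3.SW

theorem rk_rot_eq (k : Type*) [Field k] (p q s : ℕ) : rk k q s p = rk k p q s :=
  le_antisymm (rk_rot p q s) ((rk_rot s p q).trans (rk_rot q s p))

variable {M F G : Type} [Fintype M] [DecidableEq M] [Field F] [Fintype G]
  {C : Circ (Va M) F G} {val : G → MvPolynomial (Va M) F} {out : M → M → G}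

/-- a symmetry on one of the three sides -/
theorem circ_one (hC : Computes C val out) (f : Equiv.Perm M)
    (hf : Symm C out f id id ∨ Symm C out id f id ∨ Symm C out id id f) :
    spec (pm F f) (fun m => rk (AlgebraicClosure F) m (Fintype.card M) (Fintype.card M)) ≤
      mulWires C := by
  have h0 : IsMM (cA C val) (cB' C val) (cC C val out) := isMM_circ hC
  rcases hf with hf | hf | hf
  · have h1 : RowInv (cA C val) (cB' C val) (cC C val out) (pg F f) := row_circ hC.1 f hf
    have h2 := row_one h0 h1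
    rw [card_wr] at h2
    exact h2
  · have h3 : MidInv (cA C val) (cB' C val) (cC C val out) (pg F f) := mid_circ hC.1 f hf
    have h1 := mid_one h0 h3
    rw [card_wr] at h1
    have h2 : (fun m => rk (AlgebraicClosure F) (Fintype.card M) m (Fintype.card M)) =
        fun m => rk (AlgebraicClosure F) m (Fintype.card M) (Fintype.card M) := by
      funext m
      exact (rk_rot_eq _ _ _ _).symm
    rw [h2] at h1
    exact h1
  · have h1 := col_circ hC.1 f hf
    have h2 := row_one (isMM_tr h0) h1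
    rw [card_wr] at h2
    exact h2

theorem circ_cyc (hC : Computes C val out) {r : ℕ} (hr : (r : F) ≠ 0) {U : Type} [Fintype U]
    (f : Equiv.Perm M) (e : ZMod r × U ≃ M) (he : ∀ x u, f (e (x, u)) = e (x + 1, u))
    (hf : Symm C out f id id ∨ Symm C out id f id ∨ Symm C out id id f) :
    r * rk (AlgebraicClosure F) (Fintype.card U) (Fintype.card M) (Fintype.card M) ≤
      mulWires C :=
  (cyc_le hr f e he
    (fun m => rk (AlgebraicClosure F) m (Fintype.card M) (Fintype.card M))
    (fun _ _ h => rk_mono _ h _ _) (rk_zero _ _ _)).trans (circ_one hC f hf)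

theorem circ_full (hC : Computes C val out) (hr : (Fintype.card M : F) ≠ 0)
    (f : Equiv.Perm M) (e : ZMod (Fintype.card M) ≃ M) (he : ∀ x, f (e x) = e (x + 1))
    (hf : Symm C out f id id ∨ Symm C out id f id ∨ Symm C out id id f) :
    Fintype.card M ^ 3 ≤ mulWires C := by
  have h1 := circ_cyc hC hr (U := Unit) f ((Equiv.prodPUnit _).trans e) (fun x u => he x) hf
  rw [Fintype.card_unit] at h1
  refine le_trans ?_ h1
  calc Fintype.card M ^ 3 = Fintype.card M * (Fintype.card M * Fintype.card M) := by ring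
    _ ≤ _ := Nat.mul_le_mul_left _ (le_rk_one _ _ _)

theorem circ_two (hC : Computes C val out) (f f' : Equiv.Perm M) (hf : Symm C out f id id)
    (hf' : Symm C out id f' id) :
    spec2 (pm F f) (pm F f') (fun m m' => rk (AlgebraicClosure F) m m' (Fintype.card M)) ≤
      mulWires C := by
  have h0 : IsMM (cA C val) (cB' C val) (cC C val out) := isMM_circ hC
  have h1 := row_mid_one h0 (row_circ hC.1 f hf) (mid_circ hC.1 f' hf')
  rw [card_wr] at h1
  exact h1

theorem rk_mono2 (k : Type*) [Field k] {q' q : ℕ} (h : q' ≤ q) (p s : ℕ) :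
    rk k p q' s ≤ rk k p q s := by
  rw [← rk_rot_eq k p q' s, ← rk_rot_eq k p q s]
  exact rk_mono k h s p

theorem rk_zero2 (k : Type*) [Field k] (p s : ℕ) : rk k p 0 s = 0 := by
  rw [← rk_rot_eq k p 0 s]
  exact rk_zero k s p

theorem spec2_cyc {K : Type*} [Field K] {I J : Type*} [Fintype I] [DecidableEq I] [Fintype J]
    [DecidableEq J] {r r' : ℕ} (hr : (r : K) ≠ 0) (hr' : (r' : K) ≠ 0) {U U' : Type*} [Fintype U]
    [Fintype U'] (σ : Equiv.Perm I) (e : ZMod r × U ≃ I) (he : ∀ x u, σ (e (x, u)) = e (x + 1, u))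
    (σ' : Equiv.Perm J) (e' : ZMod r' × U' ≃ J) (he' : ∀ x u, σ' (e' (x, u)) = e' (x + 1, u))
    (k : Type*) [Field k] (s : ℕ) :
    r * r' * rk k (Fintype.card U) (Fintype.card U') s ≤
      spec2 (pm K σ) (pm K σ') fun m m' => rk k m m' s := by
  have h1 : ∀ m, r' * rk k m (Fintype.card U') s ≤ spec (pm K σ') fun m' => rk k m m' s :=
    fun m => cyc_le hr' σ' e' he' (fun m' => rk k m m' s) (fun _ _ h => rk_mono2 _ h _ _)
      (rk_zero2 _ _ _)
  have h2 := cyc_le hr σ e he (fun m => r' * rk k m (Fintype.card U') s)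
    (fun _ _ h => Nat.mul_le_mul_left _ (rk_mono _ h _ _)) (by simp only [rk_zero, mul_zero])
  calc r * r' * rk k (Fintype.card U) (Fintype.card U') s =
        r * (r' * rk k (Fintype.card U) (Fintype.card U') s) := by ring
    _ ≤ _ := h2
    _ ≤ _ := by
        unfold spec spec2
        exact Finset.sum_le_sum fun μ _ => h1 _

theorem circ_two_cyc (hC : Computes C val out) {r r' : ℕ} (hr : (r : F) ≠ 0) (hr' : (r' : F) ≠ 0)
    {U U' : Type} [Fintype U] [Fintype U'] (f f' : Equiv.Perm M) (e : ZMod r × U ≃ M)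
    (he : ∀ x u, f (e (x, u)) = e (x + 1, u)) (e' : ZMod r' × U' ≃ M)
    (he' : ∀ x u, f' (e' (x, u)) = e' (x + 1, u)) (hf : Symm C out f id id)
    (hf' : Symm C out id f' id) :
    r * r' * rk (AlgebraicClosure F) (Fintype.card U) (Fintype.card U') (Fintype.card M) ≤
      mulWires C :=
  (spec2_cyc hr hr' f e he f' e' he' _ _).trans (circ_two hC f f' hf hf')

/-- groups of symmetries on two sides -/
theorem circ_groups (hC : Computes C val out) {Λ Θ : Type} [Fintype Λ] [Fintype Θ]
    (d m : Λ → ℕ) (e p : Θ → ℕ) (Γ Δ : Set (Equiv.Perm M)) (e1 : M ≃ Ix d m) (e2 : M ≃ Ix e p)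
    (S1 S2 : GL M F) (hΓ : Isotypic d m e1 S1 (pg F '' Γ)) (hΔ : Isotypic e p e2 S2 (pg F '' Δ))
    (h1 : ∀ f ∈ Γ, Symm C out f id id) (h2 : ∀ f ∈ Δ, Symm C out id f id) :
    ∑ x, ∑ z, d x * e z * rk F (m x) (p z) (Fintype.card M) ≤ mulWires C := by
  have h0 : IsMM (cA C val) (cB' C val) (cC C val out) := isMM_circ hC
  have h3 := lower d m e p h0 (pg F '' Γ) (pg F '' Δ) e1 e2 S1 S2 hΓ hΔ
    (by
      rintro _ ⟨f, hf, rfl⟩
      exact row_circ hC.1 f (h1 f hf))
    (by
      rintro _ ⟨f, hf, rfl⟩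
      exact mid_circ hC.1 f (h2 f hf))
  rw [card_wr] at h3
  exact h3

end Pool.Agent.TH2.MS
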