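import Pool.Agent.TH2.MS.Defs

set_option autoImplicit false

/-!
# Linear algebra: ranks of block matrices
-/

namespace Pool.Agent.TH2.MS

open Finset Matrix

variable {K : Type*} [Field K]

/-- a rank factorisation with one sided inverses -/
theorem exists_factor {α β : Type*} [Fintype α] [DecidableEq α] [Fintype β] [DecidableEq β]
    (Y : Matrix α β K) :
    ∃ (f : Matrix α (Fin Y.rank) K) (g : Matrix (Fin Y.rank) β K) (P : Matrix (Fin Y.rank) α K)
      (Q : Matrix β (Fin Y.rank) K), Y = f * g ∧ P * f = 1 ∧ g * Q = 1 := by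
  classical
  have hr : Module.finrank K (LinearMap.range Y.mulVecLin) =
      Module.finrank K (Fin Y.rank → K) := by
    rw [Module.finrank_fin_fun]
    rfl
  let φ := LinearEquiv.ofFinrankEq _ _ hr
  let F : (Fin Y.rank → K) →ₗ[K] (α → K) :=
    (LinearMap.range Y.mulVecLin).subtype ∘ₗ φ.symm.toLinearMap
  let Gm : (β → K) →ₗ[K] (Fin Y.rank → K) := φ.toLinearMap ∘ₗ Y.mulVecLin.rangeRestrict
  have hF : LinearMap.ker F = ⊥ := by
    rw [LinearMap.ker_eq_bot]
    exact (Submodule.injective_subtype _).comp φ.symm.injective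
  have hG : LinearMap.range Gm = ⊤ := by
    rw [LinearMap.range_eq_top]
    exact φ.surjective.comp (LinearMap.surjective_rangeRestrict _)
  obtain ⟨P', hP⟩ := LinearMap.exists_leftInverse_of_injective F hF
  obtain ⟨Q', hQ⟩ := LinearMap.exists_rightInverse_of_surjective Gm hG
  refine ⟨LinearMap.toMatrix' F, LinearMap.toMatrix' Gm, LinearMap.toMatrix' P',
    LinearMap.toMatrix' Q', ?_, ?_, ?_⟩
  · rw [← LinearMap.toMatrix'_comp]
    have : F ∘ₗ Gm = Y.mulVecLin := by
      ext v
      simp [F, Gm]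
    rw [this, ← Matrix.toLin'_apply', LinearMap.toMatrix'_toLin']
  · rw [← LinearMap.toMatrix'_comp, hP, LinearMap.toMatrix'_id]
  · rw [← LinearMap.toMatrix'_comp, hQ, LinearMap.toMatrix'_id]

/-- the rank of a sum of products -/
theorem rank_le_of_sum {α β T : Type*} [Fintype α] [Fintype β] (s : Finset T) (x : T → α → K)
    (y : T → β → K) (Y : Matrix α β K) (h : ∀ i j, Y i j = ∑ t ∈ s, x t i * y t j) :
    Y.rank ≤ s.card := by
  classical
  have e : Y = (Matrix.of fun i (t : s) => x t.1 i) * (Matrix.of fun (t : s) j => y t.1 j) := by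
    ext i j
    rw [h, Matrix.mul_apply, ← Finset.sum_coe_sort s]
    rfl
  rw [e]
  refine (Matrix.rank_mul_le_left _ _).trans ((Matrix.rank_le_card_width _).trans ?_)
  rw [Fintype.card_coe]

variable {Λ : Type*} [Fintype Λ] [DecidableEq Λ]

open Classical in
/-- a function on the block `w` of the index set, extended by zero -/
noncomputable def ext0 {d m : Λ → ℕ} (w : Σ x : Λ, Fin (d x)) (g : Fin (m w.1) → K) (i : Ix d m) :
    K :=
  if h : i.1 = w.1 then if (h ▸ i.2.1) = w.2 then g (h ▸ i.2.2) else 0 else 0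

theorem sum_ext0 {d m : Λ → ℕ} (w : Σ x : Λ, Fin (d x)) (g : Fin (m w.1) → K) (F : Ix d m → K) :
    ∑ i, ext0 w g i * F i = ∑ u, g u * F ⟨w.1, w.2, u⟩ := by
  classical
  rw [Fintype.sum_sigma, Finset.sum_eq_single w.1]
  · rw [Fintype.sum_prod_type, Finset.sum_eq_single w.2]
    · refine Finset.sum_congr rfl fun u _ => ?_
      simp [ext0]
    · intro k _ hk
      refine Finset.sum_eq_zero fun u _ => ?_
      simp [ext0, hk]
    · intro h
      exact absurd (Finset.mem_univ _) h
  · intro x _ hx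
    refine Finset.sum_eq_zero fun u _ => ?_
    simp [ext0, hx]
  · intro h
    exact absurd (Finset.mem_univ _) h

/-- The rank of a matrix made of copies of blocks. -/
theorem rank_blocks {d m : Λ → ℕ} {P Q : Type*} [Fintype P] [Fintype Q]
    (M : Matrix (P × Ix d m) (Ix d m × Q) K)
    (Y : ∀ x : Λ, Matrix (P × Fin (m x)) (Fin (m x) × Q) K)
    (h1 : ∀ p q x k k' u u', M (p, ⟨x, k, u⟩) (⟨x, k', u'⟩, q) =
      if k = k' then Y x (p, u) (u', q) else 0)
    (h2 : ∀ p q x x' y y', x ≠ x' → M (p, ⟨x, y⟩) (⟨x', y'⟩, q) = 0) :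
    ∑ x, d x * (Y x).rank ≤ M.rank := by
  classical
  choose f g Pm Qm hY hP hQ using fun x => exists_factor (Y x)
  -- the index set
  let W := Σ w : (Σ x : Λ, Fin (d x)), Fin (Y w.1).rank
  let A : Matrix W (P × Ix d m) K := Matrix.of fun w r => ext0 w.1 (fun u => Pm w.1.1 w.2 (r.1, u)) r.2
  let B : Matrix (Ix d m × Q) W K := Matrix.of fun r w => ext0 w.1 (fun u => Qm w.1.1 (u, r.2) w.2) r.1
  have key : A * M * B = 1 := by
    ext w w'
    obtain ⟨⟨x, k⟩, t⟩ := w
    obtain ⟨⟨x', k'⟩, t'⟩ := w'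
    have e1 : ∀ r : Ix d m × Q, (A * M) ⟨⟨x, k⟩, t⟩ r =
        ∑ p, ∑ u, Pm x t (p, u) * M (p, ⟨x, k, u⟩) r := by
      intro r
      rw [Matrix.mul_apply, Fintype.sum_prod_type]
      refine Finset.sum_congr rfl fun p _ => ?_
      exact sum_ext0 (⟨x, k⟩ : Σ x : Λ, Fin (d x)) (fun u => Pm x t (p, u)) fun i => M (p, i) r
    have e2 : (A * M * B) ⟨⟨x, k⟩, t⟩ ⟨⟨x', k'⟩, t'⟩ =
        ∑ q, ∑ u', Qm x' (u', q) t' * (A * M) ⟨⟨x, k⟩, t⟩ (⟨x', k', u'⟩, q) := by
      rw [Matrix.mul_apply, Fintype.sum_prod_type_right]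
      refine Finset.sum_congr rfl fun q _ => ?_
      have := sum_ext0 (⟨x', k'⟩ : Σ x : Λ, Fin (d x)) (fun u => Qm x' (u, q) t')
        fun i => (A * M) ⟨⟨x, k⟩, t⟩ (i, q)
      rw [← this]
      refine Finset.sum_congr rfl fun i _ => ?_
      rw [mul_comm]
      rfl
    rw [e2]
    simp only [e1]
    by_cases hx : x = x'
    · subst hx
      by_cases hk : k = k'
      · subst hk
        have e3 : ∑ q, ∑ u', Qm x (u', q) t' * ∑ p, ∑ u, Pm x t (p, u) *
            M (p, ⟨x, k, u⟩) (⟨x, k, u'⟩, q) = (Pm x * Y x * Qm x) t t' := by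
          rw [Matrix.mul_apply, Fintype.sum_prod_type_right]
          refine Finset.sum_congr rfl fun q _ => Finset.sum_congr rfl fun u' _ => ?_
          rw [mul_comm, Matrix.mul_apply, Fintype.sum_prod_type]
          congr 1
          refine Finset.sum_congr rfl fun p _ => Finset.sum_congr rfl fun u _ => ?_
          rw [h1, if_pos rfl]
        rw [e3]
        have e4 : Pm x * Y x * Qm x = 1 := by
          have e5 : Pm x * (f x * g x) * Qm x = 1 := by
            calc Pm x * (f x * g x) * Qm x = (Pm x * f x) * (g x * Qm x) := by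
                  simp only [Matrix.mul_assoc]
              _ = 1 := by rw [hP, hQ, Matrix.one_mul]
          rwa [← hY x] at e5
        rw [e4, Matrix.one_apply, Matrix.one_apply]
        congr 1
        simp
      · rw [Matrix.one_apply_ne (by simp [hk])]
        refine Finset.sum_eq_zero fun q _ => Finset.sum_eq_zero fun u' _ => ?_
        rw [Finset.sum_eq_zero, mul_zero]
        intro p _
        refine Finset.sum_eq_zero fun u _ => ?_
        rw [h1, if_neg hk, mul_zero]
    · rw [Matrix.one_apply_ne (by simp [hx])]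
      refine Finset.sum_eq_zero fun q _ => Finset.sum_eq_zero fun u' _ => ?_
      rw [Finset.sum_eq_zero, mul_zero]
      intro p _
      refine Finset.sum_eq_zero fun u _ => ?_
      rw [h2 _ _ _ _ _ _ hx, mul_zero]
  have h3 : (A * M * B).rank ≤ M.rank :=
    (Matrix.rank_mul_le_left _ _).trans (Matrix.rank_mul_le_right _ _)
  rw [key, Matrix.rank_one] at h3
  refine le_trans (le_of_eq ?_) h3
  rw [Fintype.card_sigma, Fintype.sum_sigma]
  refine Finset.sum_congr rfl fun x _ => ?_
  simp only [Fintype.card_fin]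
  show _ = ∑ _k : Fin (d x), (Y x).rank
  rw [Finset.sum_const, Finset.card_univ, Fintype.card_fin, smul_eq_mul]

end Pool.Agent.TH2.MS
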