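import Pool.Agent.TH2.MS.Core

set_option autoImplicit false
set_option linter.unusedSectionVars false

/-!
# The lower bound, basis free form
-/

namespace Pool.Agent.TH2.MS

open Finset Matrix

variable {K : Type*} [Field K]

section reindex

variable {I J L T I' J' L' : Type*} [Fintype I] [DecidableEq I] [Fintype J] [DecidableEq J]
  [Fintype L] [DecidableEq L] [Fintype T] [Fintype I'] [DecidableEq I'] [Fintype J']
  [DecidableEq J'] [Fintype L'] [DecidableEq L']
  {a : T → Matrix I J K} {b : T → Matrix J L K} {c : T → Matrix L I K}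
  (f1 : I' ≃ I) (f2 : J' ≃ J) (f3 : L' ≃ L)

theorem isMM_sub (h : IsMM a b c) :
    IsMM (fun t => (a t).submatrix f1 f2) (fun t => (b t).submatrix f2 f3)
      (fun t => (c t).submatrix f3 f1) := by
  intro i j j' l l' i'
  have := h (f1 i) (f2 j) (f2 j') (f3 l) (f3 l') (f1 i')
  simp only [Matrix.submatrix_apply]
  rw [this]
  simp only [EmbeddingLike.apply_eq_iff_eq]

/-- reindexed invertible matrices -/
noncomputable def rein (f : I' ≃ I) (g : GL I K) : GL I' K where
  val := g.1.submatrix f f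
  inv := g⁻¹.1.submatrix f f
  val_inv := by
    rw [Matrix.submatrix_mul_equiv, ← Units.val_mul, mul_inv_cancel, Units.val_one]
    exact Matrix.submatrix_one_equiv f
  inv_val := by
    rw [Matrix.submatrix_mul_equiv, ← Units.val_mul, inv_mul_cancel, Units.val_one]
    exact Matrix.submatrix_one_equiv f

theorem rein_val (f : I' ≃ I) (g : GL I K) : (rein f g).1 = g.1.submatrix f f := rfl

theorem rein_inv (f : I' ≃ I) (g : GL I K) : (rein f g)⁻¹.1 = g⁻¹.1.submatrix f f := rfl

theorem rowInv_sub {g : GL I K} (hg : RowInv a b c g) :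
    RowInv (fun t => (a t).submatrix f1 f2) (fun t => (b t).submatrix f2 f3)
      (fun t => (c t).submatrix f3 f1) (rein f1 g) := by
  obtain ⟨π, hπ⟩ := hg
  refine ⟨π, fun t i j j' l l' i' => ?_⟩
  rw [rein_val, rein_inv, Matrix.submatrix_mul_equiv, Matrix.submatrix_mul_equiv]
  exact hπ t (f1 i) (f2 j) (f2 j') (f3 l) (f3 l') (f1 i')

theorem midInv_sub {g : GL J K} (hg : MidInv a b c g) :
    MidInv (fun t => (a t).submatrix f1 f2) (fun t => (b t).submatrix f2 f3)
      (fun t => (c t).submatrix f3 f1) (rein f2 g) := by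
  obtain ⟨π, hπ⟩ := hg
  refine ⟨π, fun t i j j' l l' i' => ?_⟩
  rw [rein_val, rein_inv, Matrix.submatrix_mul_equiv, Matrix.submatrix_mul_equiv]
  exact hπ t (f1 i) (f2 j) (f2 j') (f3 l) (f3 l') (f1 i')

end reindex

theorem blk_of_isotypic {Λ I : Type*} [Fintype Λ] [DecidableEq Λ] [Fintype I] [DecidableEq I]
    {d m : Λ → ℕ} {e : I ≃ Ix d m} {S : GL I K} {G : Set (GL I K)} (hG : Isotypic d m e S G)
    (X : Matrix (Ix d m) (Ix d m) K)
    (hX : ∀ g ∈ (fun g => rein e.symm (S * g * S⁻¹)) '' G, g.1 * X = X * g.1) : Blk d m X := by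
  obtain ⟨Y, h1, h2⟩ := hG (X.submatrix e e) (by
    intro g hg
    have h3 := hX _ ⟨g, hg, rfl⟩
    have h4 := congrArg (fun M : Matrix (Ix d m) (Ix d m) K => M.submatrix e e) h3
    simp only at h4
    rw [← Matrix.submatrix_mul_equiv (e₂ := e), ← Matrix.submatrix_mul_equiv (e₂ := e)] at h4
    have h5 : (rein e.symm (S * g * S⁻¹)).1.submatrix e e = (S * g * S⁻¹).1 := by
      rw [rein_val]
      ext i j
      simp
    rwa [h5] at h4)
  refine ⟨Y, ?_, ?_⟩
  · intro x k k' u u'
    have := h1 x k k' u u'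
    simpa using this
  · intro x x' y y' hx
    have := h2 x x' y y' hx
    simpa using this

theorem lower {Λ Θ : Type*} [Fintype Λ] [Fintype Θ] (d m : Λ → ℕ) (e p : Θ → ℕ)
    {I J L T : Type*} [Fintype I] [DecidableEq I] [Fintype J]
    [DecidableEq J] [Fintype L] [DecidableEq L] [Fintype T]
    {a : T → Matrix I J K} {b : T → Matrix J L K} {c : T → Matrix L I K} (h : IsMM a b c)
    (G : Set (GL I K)) (H : Set (GL J K)) (e1 : I ≃ Ix d m) (e2 : J ≃ Ix e p) (S1 : GL I K)
    (S2 : GL J K) (hG : Isotypic d m e1 S1 G) (hH : Isotypic e p e2 S2 H)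
    (hGi : ∀ g ∈ G, RowInv a b c g) (hHi : ∀ h ∈ H, MidInv a b c h) :
    ∑ x, ∑ z, d x * e z * rk K (m x) (p z) (Fintype.card L) ≤ Fintype.card T := by
  classical
  have h1 := isMM_sub e1.symm e2.symm (Fintype.equivFin L).symm (isMM_mid (isMM_row h S1) S2)
  refine core d m e p h1 ((fun g => rein e1.symm (S1 * g * S1⁻¹)) '' G) (blk_of_isotypic hG) ?_
    ((fun g => rein e2.symm (S2 * g * S2⁻¹)) '' H) (blk_of_isotypic hH) ?_
  · rintro _ ⟨g, hg, rfl⟩
    exact rowInv_sub e1.symm e2.symm (Fintype.equivFin L).symm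
      (rowInv_mid (rowInv_row (hGi g hg) S1) S2)
  · rintro _ ⟨g, hg, rfl⟩
    exact midInv_sub e1.symm e2.symm (Fintype.equivFin L).symm
      (midInv_mid (midInv_row (hHi g hg) S1) S2)

/-- the empty set of matrices: one summand of dimension one -/
theorem isotypic_empty (J : Type*) [Fintype J] [DecidableEq J] :
    Isotypic (K := K) (Λ := Unit) (fun _ => 1) (fun _ => Fintype.card J)
      ((Fintype.equivFin J).trans
        ⟨fun j => ⟨(), 0, j⟩, fun x => x.2.2, fun j => rfl, fun x => by
          obtain ⟨⟨⟩, k, j⟩ := x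
          have : k = 0 := Subsingleton.elim _ _
          subst this
          rfl⟩) 1 (∅ : Set (GL J K)) := by
  intro X _
  refine ⟨fun _ => Matrix.of fun u u' => X ((Fintype.equivFin J).symm u)
    ((Fintype.equivFin J).symm u'), ?_, ?_⟩
  · rintro ⟨⟩ k k' u u'
    have : k = k' := Subsingleton.elim _ _
    subst this
    rw [if_pos rfl]
    rfl
  · intro x x' _ _ hx
    exact absurd (Subsingleton.elim x x') hx

/-- Invariance on the side of the rows only. -/
theorem lower_row {Λ : Type*} [Fintype Λ] (d m : Λ → ℕ)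
    {I J L T : Type*} [Fintype I] [DecidableEq I] [Fintype J]
    [DecidableEq J] [Fintype L] [DecidableEq L] [Fintype T]
    {a : T → Matrix I J K} {b : T → Matrix J L K} {c : T → Matrix L I K} (h : IsMM a b c)
    (G : Set (GL I K)) (e1 : I ≃ Ix d m) (S1 : GL I K) (hG : Isotypic d m e1 S1 G)
    (hGi : ∀ g ∈ G, RowInv a b c g) :
    ∑ x, d x * rk K (m x) (Fintype.card J) (Fintype.card L) ≤ Fintype.card T := by
  have := lower d m (fun _ : Unit => 1) (fun _ => Fintype.card J) h G ∅ e1 _ S1 1 hG
    (isotypic_empty J) hGi (by simp)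
  simpa using this

/-- Invariance on the side of the inner indices only. -/
theorem lower_mid {Θ : Type*} [Fintype Θ] (e p : Θ → ℕ)
    {I J L T : Type*} [Fintype I] [DecidableEq I] [Fintype J]
    [DecidableEq J] [Fintype L] [DecidableEq L] [Fintype T]
    {a : T → Matrix I J K} {b : T → Matrix J L K} {c : T → Matrix L I K} (h : IsMM a b c)
    (H : Set (GL J K)) (e2 : J ≃ Ix e p) (S2 : GL J K) (hH : Isotypic e p e2 S2 H)
    (hHi : ∀ h ∈ H, MidInv a b c h) :
    ∑ z, e z * rk K (Fintype.card I) (p z) (Fintype.card L) ≤ Fintype.card T := by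
  have := lower (fun _ : Unit => 1) (fun _ => Fintype.card I) e p h ∅ H _ e2 1 S2
    (isotypic_empty I) hH (by simp) hHi
  simpa using this

/-! ### The rank of `⟨1, q, s⟩` -/

/-- the rank of the tensor of a matrix-vector product -/
theorem le_rk_one (K : Type*) [Field K] (q s : ℕ) : q * s ≤ rk K 1 q s := by
  classical
  unfold rk
  apply le_csInf
  · refine ⟨1 * q * s, ?_⟩
    let E := (finProdFinEquiv (m := 1 * q) (n := s)).symm
    let E' := (finProdFinEquiv (m := 1) (n := q)).symm
    refine ⟨fun t => Matrix.of fun i j => if (E' (E t).1) = (i, j) then 1 else 0,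
      fun t => Matrix.of fun j l => if (E' (E t).1).2 = j ∧ (E t).2 = l then 1 else 0,
      fun t => Matrix.of fun l i => if (E' (E t).1).1 = i ∧ (E t).2 = l then 1 else 0, ?_⟩
    intro i j j' l l' i'
    rw [Equiv.sum_comp E fun r => (Matrix.of fun i j => if (E' r.1) = (i, j) then (1 : K) else 0) i j *
      (Matrix.of fun j l => if (E' r.1).2 = j ∧ r.2 = l then (1 : K) else 0) j' l *
      (Matrix.of fun l i => if (E' r.1).1 = i ∧ r.2 = l then (1 : K) else 0) l' i',
      Fintype.sum_prod_type, Equiv.sum_comp E' fun r => ∑ x, (Matrix.of fun i j => if r = (i, j) then (1 : K) else 0) i j *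
      (Matrix.of fun j l => if r.2 = j ∧ x = l then (1 : K) else 0) j' l *
      (Matrix.of fun l i => if r.1 = i ∧ x = l then (1 : K) else 0) l' i']
    rw [Finset.sum_eq_single (i, j)]
    · rw [Finset.sum_eq_single l]
      · by_cases h1 : j = j' <;> by_cases h2 : l = l' <;> by_cases h3 : i = i' <;>
          simp [h1, h2, h3]
      · intro x _ hx
        simp [hx]
      · simp
    · intro r _ hr
      simp [hr]
    · simp
  · rintro N ⟨a, b, c, h⟩
    have h1 : (1 : Matrix (Fin q × Fin s) (Fin q × Fin s) K).rank ≤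
        (univ : Finset (Fin N)).card := by
      refine rank_le_of_sum univ (fun t r => b t r.1 r.2) (fun t r => a t 0 r.1 * c t r.2 0) _ ?_
      rintro ⟨j', l⟩ ⟨j, l'⟩
      have h2 := h 0 j j' l l' 0
      rw [Matrix.one_apply]
      have h3 : (if ((j', l) : Fin q × Fin s) = (j, l') then (1 : K) else 0) =
          if j = j' ∧ l = l' ∧ (0 : Fin 1) = 0 then 1 else 0 := by
        simp [eq_comm]
      rw [h3, ← h2]
      refine Finset.sum_congr rfl fun t _ => ?_
      ring
    rw [Matrix.rank_one, Finset.card_univ, Fintype.card_fin, Fintype.card_prod, Fintype.card_fin,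
      Fintype.card_fin] at h1
    exact h1

end Pool.Agent.TH2.MS
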