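import Pool.Agent.TH2.MS.Step

set_option autoImplicit false
set_option linter.unusedSectionVars false

/-!
# Invariance under a matrix acting on the inner indices
-/

namespace Pool.Agent.TH2.MS

open Finset Matrix

variable {K : Type*} [Field K]
variable {I J L T : Type*} [Fintype I] [DecidableEq I] [Fintype J] [DecidableEq J]
  [Fintype L] [DecidableEq L] [Fintype T]

variable {a : T → Matrix I J K} {b : T → Matrix J L K} {c : T → Matrix L I K}

/-- the action of `h` on normalised matrices -/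
noncomputable def act (h : GL J K) (β : Matrix J L K) : Matrix J L K := nrm K (h.1 * β)

theorem act_smul (h : GL J K) {z : K} (hz : z ≠ 0) (β : Matrix J L K) :
    act h (z • β) = act h β := by
  unfold act
  rw [Matrix.mul_smul, nrm_smul hz]

theorem act_nrm (h : GL J K) (β : Matrix J L K) : act h (nrm K β) = act h β := by
  conv_rhs => rw [← sc_smul (K := K) β]
  rw [act_smul h (sc_ne β)]

theorem act_inj (h : GL J K) {β β' : Matrix J L K} (hh : act h β = act h β') :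
    nrm K β = nrm K β' := by
  unfold act at hh
  obtain ⟨z, hz, e⟩ := nrm_eq_iff.mp hh
  refine nrm_eq_iff.mpr ⟨z, hz, ?_⟩
  have : h⁻¹.1 * (h.1 * β') = h⁻¹.1 * (z • (h.1 * β)) := by rw [e]
  rw [← Matrix.mul_assoc, Matrix.mul_smul, ← Matrix.mul_assoc, ← Units.val_mul, inv_mul_cancel,
    Units.val_one, Matrix.one_mul, Matrix.one_mul] at this
  exact this

section

variable {h : GL J K} {π : Equiv.Perm T} (hπ : ∀ t i j j' l l' i',
    (a t * h⁻¹.1) i j * (h.1 * b t) j' l * c t l' i' = a (π t) i j * b (π t) j' l * c (π t) l' i')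

include hπ

theorem mid_pi {t : T} (ht : t ∈ T0 a b c) : π t ∈ T0 a b c ∧ nrm K (b (π t)) = act h (b t) ∧
      ∀ i j l' i', sc K (h.1 * b t) * ((a t * h⁻¹.1) i j * c t l' i') =
        sc K (b (π t)) * (a (π t) i j * c (π t) l' i') := by
  obtain ⟨h1, h2, h3⟩ := mem_T0.mp ht
  have h2' : h.1 * b t ≠ 0 := gl_mul_ne h2
  obtain ⟨k1, k2, k3, ρ, hρ, k4, k5⟩ := rank_one_eq (K := K)
    (x := fun p : I × J => (a t * h⁻¹.1) p.1 p.2) (y := fun p : J × L => (h.1 * b t) p.1 p.2)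
    (z := fun p : L × I => c t p.1 p.2) (x' := fun p : I × J => a (π t) p.1 p.2)
    (y' := fun p : J × L => b (π t) p.1 p.2) (z' := fun p : L × I => c (π t) p.1 p.2)
    (fun p q r => hπ t p.1 p.2 q.1 q.2 r.1 r.2)
    (fun e => mul_gl_ne (g := h⁻¹) h1 (by ext i j; exact congrFun e (i, j)))
    (fun e => h2' (by ext i j; exact congrFun e (i, j)))
    (fun e => h3 (by ext i j; exact congrFun e (i, j)))
  have k4' : b (π t) = ρ • (h.1 * b t) := by
    ext j l
    exact congrFun k4 (j, l)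
  refine ⟨mem_T0.mpr ⟨fun e => k1 (by rw [e]; rfl), fun e => k2 (by rw [e]; rfl),
    fun e => k3 (by rw [e]; rfl)⟩, ?_, ?_⟩
  · rw [k4', nrm_smul hρ]; rfl
  · intro i j l' i'
    have := k5 (i, j) (l', i')
    simp only at this
    rw [this, k4', sc_smul_eq hρ h2']
    ring

theorem mid_pi_iff (t : T) : π t ∈ T0 a b c ↔ t ∈ T0 a b c := by
  constructor
  · intro ht
    obtain ⟨h1, h2, h3⟩ := mem_T0.mp ht
    obtain ⟨k1, k2, k3, -⟩ := rank_one_eq (K := K)
      (x' := fun p : I × J => (a t * h⁻¹.1) p.1 p.2) (y' := fun p : J × L => (h.1 * b t) p.1 p.2)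
      (z' := fun p : L × I => c t p.1 p.2) (x := fun p : I × J => a (π t) p.1 p.2)
      (y := fun p : J × L => b (π t) p.1 p.2) (z := fun p : L × I => c (π t) p.1 p.2)
      (fun p q r => (hπ t p.1 p.2 q.1 q.2 r.1 r.2).symm)
      (fun e => h1 (by ext i j; exact congrFun e (i, j)))
      (fun e => h2 (by ext i j; exact congrFun e (i, j)))
      (fun e => h3 (by ext i j; exact congrFun e (i, j)))
    refine mem_T0.mpr ⟨fun e => k1 ?_, fun e => k2 ?_, fun e => k3 (by rw [e]; rfl)⟩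
    · rw [e, Matrix.zero_mul]; rfl
    · rw [e, Matrix.mul_zero]; rfl
  · intro ht
    exact (mid_pi hπ ht).1

theorem act_mem {β : Matrix J L K} (hβ : β ∈ Bs a b c) : act h β ∈ Bs a b c := by
  obtain ⟨t, ht, rfl⟩ := mem_Bs.mp hβ
  obtain ⟨h1, h2, -⟩ := mid_pi hπ ht
  exact mem_Bs.mpr ⟨π t, h1, by rw [h2, act_nrm]⟩

theorem act_surj {β' : Matrix J L K} (hβ : β' ∈ Bs a b c) : ∃ β ∈ Bs a b c, act h β = β' := by
  obtain ⟨t', ht', rfl⟩ := mem_Bs.mp hβ
  have e : π (π.symm t') = t' := π.apply_symm_apply t'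
  have h1 : π.symm t' ∈ T0 a b c := by rw [← mid_pi_iff hπ, e]; exact ht'
  obtain ⟨-, h2, -⟩ := mid_pi hπ h1
  rw [e] at h2
  exact ⟨nrm K (b (π.symm t')), mem_Bs.mpr ⟨_, h1, rfl⟩, by rw [act_nrm, h2]⟩

theorem act_inj' {β β' : Matrix J L K} (hβ : β ∈ Bs a b c) (hβ' : β' ∈ Bs a b c)
    (e : act h β = act h β') : β = β' := by
  have := act_inj h e
  rwa [Bs_nrm hβ, Bs_nrm hβ'] at this

theorem mid_phi {β : Matrix J L K} (hβ : β ∈ Bs a b c) (i : I) (j : J) (l : L) (i' : I) :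
    sc K (h.1 * β) * ∑ j1, Phi a b c β (j1, i) (i', l) * h⁻¹.1 j1 j =
      Phi a b c (act h β) (j, i) (i', l) := by
  classical
  have hβ0 : h.1 * β ≠ 0 := gl_mul_ne (Bs_ne hβ)
  have e1 : sc K (h.1 * β) * ∑ j1, Phi a b c β (j1, i) (i', l) * h⁻¹.1 j1 j =
      ∑ t ∈ cl a b c β, sc K (h.1 * b t) * ((a t * h⁻¹.1) i j * c t l i') := by
    simp only [Phi, Matrix.of_apply, Finset.sum_mul, Finset.mul_sum]
    rw [Finset.sum_comm]
    refine Finset.sum_congr rfl fun t ht => ?_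
    have e2 : sc K (h.1 * b t) = sc K (b t) * sc K (h.1 * β) := by
      have e3 : h.1 * b t = sc K (b t) • (h.1 * β) := by
        conv_lhs => rw [← sc_smul (K := K) (b t), (mem_cl.mp ht).2]
        rw [Matrix.mul_smul]
      rw [e3, sc_smul_eq (sc_ne _) hβ0]
    rw [e2, Matrix.mul_apply, Finset.sum_mul, Finset.mul_sum]
    refine Finset.sum_congr rfl fun j1 _ => ?_
    ring
  rw [e1]
  show _ = ∑ t ∈ cl a b c (act h β), sc K (b t) * (a t i j * c t l i')
  refine Finset.sum_equiv π ?_ ?_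
  · intro t
    rw [mem_cl, mem_cl, mid_pi_iff hπ]
    constructor
    · rintro ⟨h1, h2⟩
      refine ⟨h1, ?_⟩
      rw [(mid_pi hπ h1).2.1, ← h2, act_nrm]
    · rintro ⟨h1, h2⟩
      refine ⟨h1, ?_⟩
      rw [(mid_pi hπ h1).2.1] at h2
      rw [act_inj h h2, Bs_nrm hβ]
  · intro t ht
    exact (mid_pi hπ (mem_cl.mp ht).1).2.2 i j l i'

end

end Pool.Agent.TH2.MS
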