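import Pool.Agent.TH2.MS.Lin

set_option autoImplicit false

/-!
# Normalised vectors, equality of rank one tensors
-/

namespace Pool.Agent.TH2.MS

open Finset

variable {K : Type*} [Field K]

section nrm

variable {V : Type*} [AddCommGroup V] [Module K V]

variable (K V) in
/-- proportional vectors -/
def prp : Setoid V where
  r x y := ∃ z : K, z ≠ 0 ∧ y = z • x
  iseqv :=
    ⟨fun x => ⟨1, one_ne_zero, (one_smul K x).symm⟩,
     fun {x y} ⟨z, hz, h⟩ => ⟨z⁻¹, inv_ne_zero hz, by rw [h, smul_smul, inv_mul_cancel₀ hz, one_smul]⟩,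
     fun {x y w} ⟨z, hz, h⟩ ⟨z', hz', h'⟩ => ⟨z' * z, mul_ne_zero hz' hz, by rw [h', h, smul_smul]⟩⟩

variable (K) in
/-- the representative of the class of proportional vectors -/
noncomputable def nrm (x : V) : V := Quotient.out (Quotient.mk (prp K V) x)

theorem exists_sc (x : V) : ∃ z : K, z ≠ 0 ∧ x = z • nrm K x :=
  Quotient.exact (Quotient.out_eq (Quotient.mk (prp K V) x))

variable (K) in
/-- the scalar with `x = sc x • nrm x` -/
noncomputable def sc (x : V) : K := Classical.choose (exists_sc (K := K) x)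

theorem sc_ne (x : V) : sc K x ≠ 0 := (Classical.choose_spec (exists_sc (K := K) x)).1

theorem sc_smul (x : V) : sc K x • nrm K x = x := (Classical.choose_spec (exists_sc (K := K) x)).2.symm

theorem nrm_smul {z : K} (hz : z ≠ 0) (x : V) : nrm K (z • x) = nrm K x := by
  unfold nrm
  congr 1
  apply Quotient.sound
  show ∃ w : K, w ≠ 0 ∧ x = w • z • x
  exact ⟨z⁻¹, inv_ne_zero hz, by rw [smul_smul, inv_mul_cancel₀ hz, one_smul]⟩

theorem nrm_nrm (x : V) : nrm K (nrm K x) = nrm K x := by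
  conv_rhs => rw [← sc_smul (K := K) x]
  rw [nrm_smul (sc_ne x)]

theorem nrm_ne {x : V} (hx : x ≠ 0) : nrm K x ≠ 0 := by
  intro h
  apply hx
  rw [← sc_smul (K := K) x, h, smul_zero]

theorem nrm_eq_iff {x y : V} : nrm K x = nrm K y ↔ ∃ z : K, z ≠ 0 ∧ y = z • x := by
  constructor
  · intro h
    refine ⟨sc K y * (sc K x)⁻¹, mul_ne_zero (sc_ne y) (inv_ne_zero (sc_ne x)), ?_⟩
    have h1 : (sc K x)⁻¹ • x = nrm K x := by
      have h2 : (sc K x)⁻¹ • (sc K x • nrm K x) = nrm K x := by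
        rw [smul_smul, inv_mul_cancel₀ (sc_ne x), one_smul]
      rwa [sc_smul] at h2
    rw [mul_smul, h1, h, sc_smul]
  · rintro ⟨z, hz, rfl⟩
    rw [nrm_smul hz]

/-- the scalar of a multiple -/
theorem sc_smul_eq {z : K} (hz : z ≠ 0) {x : V} (hx : x ≠ 0) : sc K (z • x) = z * sc K x := by
  have h1 := sc_smul (K := K) (z • x)
  rw [nrm_smul hz] at h1
  have h2 : z • x = (z * sc K x) • nrm K x := by rw [mul_smul, sc_smul]
  have h3 : (sc K (z • x) - z * sc K x) • nrm K x = 0 := by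
    rw [sub_smul, h1, ← h2, sub_self]
  rcases smul_eq_zero.mp h3 with h | h
  · exact sub_eq_zero.mp h
  · exact absurd h (nrm_ne hx)

end nrm

/-- equality of nonzero rank one tensors -/
theorem rank_one_eq {α β γ : Type*} {x x' : α → K} {y y' : β → K} {z z' : γ → K}
    (h : ∀ i j k, x i * y j * z k = x' i * y' j * z' k) (hx : x ≠ 0) (hy : y ≠ 0) (hz : z ≠ 0) :
    x' ≠ 0 ∧ y' ≠ 0 ∧ z' ≠ 0 ∧ ∃ ρ : K, ρ ≠ 0 ∧ y' = ρ • y ∧ ∀ i k, x i * z k = ρ * (x' i * z' k) := by
  obtain ⟨i0, hi0⟩ := Function.ne_iff.mp hx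
  obtain ⟨j0, hj0⟩ := Function.ne_iff.mp hy
  obtain ⟨k0, hk0⟩ := Function.ne_iff.mp hz
  simp only [Pi.zero_apply] at hi0 hj0 hk0
  have h0 := h i0 j0 k0
  have hne : x' i0 * y' j0 * z' k0 ≠ 0 := by
    rw [← h0]; exact mul_ne_zero (mul_ne_zero hi0 hj0) hk0
  have hz0 : z' k0 ≠ 0 := right_ne_zero_of_mul hne
  have hy0 : y' j0 ≠ 0 := right_ne_zero_of_mul (left_ne_zero_of_mul hne)
  have hx0 : x' i0 ≠ 0 := left_ne_zero_of_mul (left_ne_zero_of_mul hne)
  refine ⟨fun e => hx0 (by rw [e]; rfl), fun e => hy0 (by rw [e]; rfl),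
    fun e => hz0 (by rw [e]; rfl), y' j0 * (y j0)⁻¹, mul_ne_zero hy0 (inv_ne_zero hj0), ?_, ?_⟩
  · funext j
    have h1 := h i0 j k0
    rw [Pi.smul_apply, smul_eq_mul]
    have h2 : x' i0 * z' k0 ≠ 0 := mul_ne_zero hx0 hz0
    -- x i0 z k0 = ρ x' z'
    have h3 : x i0 * z k0 * y j0 = x' i0 * z' k0 * y' j0 := by linear_combination h0
    have h4 : x i0 * z k0 * y j = x' i0 * z' k0 * y' j := by linear_combination h1
    have h5 : x i0 * z k0 = x' i0 * z' k0 * (y' j0 * (y j0)⁻¹) := by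
      field_simp
      linear_combination h3
    rw [h5] at h4
    have h6 : x' i0 * z' k0 * (y' j0 * (y j0)⁻¹ * y j - y' j) = 0 := by linear_combination h4
    rcases mul_eq_zero.mp h6 with h7 | h7
    · exact absurd h7 h2
    · exact (sub_eq_zero.mp h7).symm
  · intro i k
    have h1 := h i j0 k
    field_simp
    linear_combination h1

end Pool.Agent.TH2.MS
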