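import Pool.Agent.TH2.MS.Mid

set_option autoImplicit false
set_option linter.unusedSectionVars false

/-!
# The second step
-/

namespace Pool.Agent.TH2.MS

open Finset Matrix

variable {K : Type*} [Field K]

/-- block matrices: the matrices `⊕ 1 ⊗ Y x` -/
def Blk {Λ : Type*} (d m : Λ → ℕ) (X : Matrix (Ix d m) (Ix d m) K) : Prop :=
  ∃ Y : ∀ x : Λ, Matrix (Fin (m x)) (Fin (m x)) K,
    (∀ x k k' u u', X ⟨x, k, u⟩ ⟨x, k', u'⟩ = if k = k' then Y x u u' else 0) ∧
    ∀ x x' y y', x ≠ x' → X ⟨x, y⟩ ⟨x', y'⟩ = 0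

theorem rk_le {m p s : ℕ} {T : Type*} [Fintype T] {a : T → Matrix (Fin m) (Fin p) K}
    {b : T → Matrix (Fin p) (Fin s) K} {c : T → Matrix (Fin s) (Fin m) K} (h : IsMM a b c) :
    rk K m p s ≤ Fintype.card T := by
  refine Nat.sInf_le ⟨fun t => a ((Fintype.equivFin T).symm t),
    fun t => b ((Fintype.equivFin T).symm t), fun t => c ((Fintype.equivFin T).symm t), ?_⟩
  intro i j j' l l' i'
  rw [← h i j j' l l' i']
  exact Equiv.sum_comp (Fintype.equivFin T).symm fun t => a t i j * b t j' l * c t l' i'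

theorem rk_le_family {m p s : ℕ} {S : Type*} (F : Finset S)
    (W : S → Matrix (Fin m × Fin p) (Fin p × Fin s) K) (u : S → Fin m × Fin s → K)
    (h : ∀ i j j' l l' i', ∑ κ ∈ F, W κ (i, j) (j', l) * u κ (i', l') =
      if j = j' ∧ l = l' ∧ i = i' then 1 else 0) :
    rk K m p s ≤ ∑ κ ∈ F, (W κ).rank := by
  classical
  choose f g P Q hW _ _ using fun κ => exists_factor (W κ)
  have h1 : IsMM (T := Σ κ : F, Fin (W κ).rank)
      (fun t => Matrix.of fun i j => f t.1 (i, j) t.2)
      (fun t => Matrix.of fun j l => g t.1 t.2 (j, l))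
      (fun t => Matrix.of fun l i => u t.1 (i, l)) := by
    intro i j j' l l' i'
    rw [← h i j j' l l' i', Fintype.sum_sigma, ← Finset.sum_coe_sort F]
    refine Finset.sum_congr rfl fun κ _ => ?_
    simp only [Matrix.of_apply]
    rw [← Finset.sum_mul]
    congr 1
    conv_rhs => rw [hW κ.1]
    rw [Matrix.mul_apply]
  refine (rk_le h1).trans (le_of_eq ?_)
  rw [Fintype.card_sigma, ← Finset.sum_coe_sort F]
  simp

theorem exists_coord {V : Type*} [AddCommGroup V] [Module K V] [FiniteDimensional K V]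
    (W : Submodule K V) :
    ∃ (φ : V →ₗ[K] (Fin (Module.finrank K W) → K)) (u : Fin (Module.finrank K W) → V),
      ∀ v ∈ W, v = ∑ i, φ v i • u i := by
  let bs := Module.finBasis K W
  obtain ⟨ψ, hψ⟩ := LinearMap.exists_leftInverse_of_injective W.subtype (by simp)
  refine ⟨bs.equivFun.toLinearMap ∘ₗ ψ, fun i => (bs i : V), ?_⟩
  intro v hv
  have h1 : ψ v = ⟨v, hv⟩ := by
    have := LinearMap.congr_fun hψ ⟨v, hv⟩
    simpa using this
  have h2 := bs.sum_equivFun ⟨v, hv⟩
  have h3 := congrArg (W.subtype) h2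
  rw [map_sum] at h3
  simp only [map_smul, Submodule.subtype_apply] at h3
  simp only [LinearMap.comp_apply, LinearEquiv.coe_coe, h1]
  exact h3.symm

variable {Θ : Type*} [Fintype Θ] [DecidableEq Θ]

theorem second (e p : Θ → ℕ) {m s : ℕ} (H : Set (GL (Ix e p) K))
    (hH : ∀ X : Matrix (Ix e p) (Ix e p) K, (∀ h ∈ H, h.1 * X = X * h.1) → Blk e p X)
    (B : Finset (Matrix (Ix e p) (Fin s) K))
    (y : Matrix (Ix e p) (Fin s) K → Matrix (Ix e p × Fin m) (Fin m × Fin s) K)
    (h1 : ∀ i j j' l l' i', ∑ β ∈ B, y β (j, i) (i', l') * β j' l =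
      if j = j' ∧ l = l' ∧ i = i' then 1 else 0)
    (h2 : ∀ h ∈ H, ∀ β ∈ B, act h β ∈ B)
    (h3 : ∀ h ∈ H, ∀ β ∈ B, ∀ β' ∈ B, act h β = act h β' → β = β')
    (h4 : ∀ h ∈ H, ∀ β' ∈ B, ∃ β ∈ B, act h β = β')
    (h5 : ∀ h ∈ H, ∀ β ∈ B, ∀ i j l i', sc K (h.1 * β) * ∑ j1, y β (j1, i) (i', l) * h⁻¹.1 j1 j =
      y (act h β) (j, i) (i', l)) :
    ∑ x, e x * rk K m (p x) s ≤ ∑ β ∈ B, (y β).rank := by
  classical
  -- row spaces
  set U : Matrix (Ix e p) (Fin s) K → Submodule K (Fin m × Fin s → K) := fun β =>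
    Submodule.span K (Set.range (y β)) with hU
  have hUr : ∀ β, Module.finrank K (U β) = (y β).rank := by
    intro β
    rw [Matrix.rank_eq_finrank_span_row]
    rfl
  have hmem : ∀ β r, y β r ∈ U β := fun β r => Submodule.subset_span ⟨r, rfl⟩
  -- rows of the image
  have hrow : ∀ h ∈ H, ∀ β ∈ B, ∀ j i, y (act h β) (j, i) =
      sc K (h.1 * β) • ∑ j1, h⁻¹.1 j1 j • y β (j1, i) := by
    intro h hh β hβ j i
    funext r
    obtain ⟨i', l⟩ := r
    rw [← h5 h hh β hβ, Pi.smul_apply, smul_eq_mul, Finset.sum_apply]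
    congr 1
    refine Finset.sum_congr rfl fun j1 _ => ?_
    rw [Pi.smul_apply, smul_eq_mul, mul_comm]
  have hrow' : ∀ h ∈ H, ∀ β ∈ B, ∀ j i, ∑ j1, h⁻¹.1 j1 j • y β (j1, i) =
      (sc K (h.1 * β))⁻¹ • y (act h β) (j, i) := by
    intro h hh β hβ j i
    rw [hrow h hh β hβ]
    exact (inv_smul_smul₀ (sc_ne _) _).symm
  have hUact : ∀ h ∈ H, ∀ β ∈ B, U (act h β) = U β := by
    intro h hh β hβ
    apply le_antisymm
    · rw [hU]
      simp only
      rw [Submodule.span_le]
      rintro _ ⟨⟨j, i⟩, rfl⟩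
      rw [hrow h hh β hβ]
      exact Submodule.smul_mem _ _ (Submodule.sum_mem _ fun j1 _ =>
        Submodule.smul_mem _ _ (hmem β _))
    · rw [hU]
      simp only
      rw [Submodule.span_le]
      rintro _ ⟨⟨j, i⟩, rfl⟩
      have e1 : y β (j, i) = ∑ j2, h.1 j2 j • ∑ j1, h⁻¹.1 j1 j2 • y β (j1, i) := by
        simp only [Finset.smul_sum, smul_smul]
        rw [Finset.sum_comm]
        have e2 : ∀ j1, ∑ j2, (h.1 j2 j * h⁻¹.1 j1 j2) • y β (j1, i) =
            (if j1 = j then (1 : K) else 0) • y β (j1, i) := by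
          intro j1
          rw [← Finset.sum_smul]
          congr 1
          have h9 : (h⁻¹.1 * h.1) = (1 : Matrix (Ix e p) (Ix e p) K) := by
            rw [← Units.val_mul, inv_mul_cancel, Units.val_one]
          have := congrFun (congrFun h9 j1) j
          rw [Matrix.mul_apply, Matrix.one_apply] at this
          rw [← this]
          exact Finset.sum_congr rfl fun _ _ => mul_comm _ _
        simp only [e2]
        simp
      rw [e1]
      refine Submodule.sum_mem _ fun j2 _ => Submodule.smul_mem _ _ ?_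
      rw [hrow' h hh β hβ]
      exact Submodule.smul_mem _ _ (hmem (act h β) _)
  -- coordinates
  choose φ u hφ using fun W : Submodule K (Fin m × Fin s → K) => exists_coord W
  let Om : (κ : Σ W : Submodule K (Fin m × Fin s → K), Fin (Module.finrank K W)) →
      Matrix (Fin m × Ix e p) (Ix e p × Fin s) K := fun κ =>
    Matrix.of fun r q => ∑ β ∈ B.filter (fun β => U β = κ.1),
      φ κ.1 (y β (r.2, r.1)) κ.2 * β q.1 q.2
  have hrank : ∀ κ, (Om κ).rank ≤ (B.filter (fun β => U β = κ.1)).card := by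
    intro κ
    refine rank_le_of_sum (B.filter (fun β => U β = κ.1))
      (fun β r => φ κ.1 (y β (r.2, r.1)) κ.2) (fun β q => β q.1 q.2) _ ?_
    intro r q
    rfl
  -- commutation
  have hcomm : ∀ κ (i : Fin m) (l : Fin s), ∀ h ∈ H,
      h.1 * (Matrix.of fun j' j => Om κ (i, j) (j', l)) =
        (Matrix.of fun j' j => Om κ (i, j) (j', l)) * h.1 := by
    intro κ i l h hh
    set X : Matrix (Ix e p) (Ix e p) K := Matrix.of fun j' j => Om κ (i, j) (j', l) with hX
    have key : h.1 * X * h⁻¹.1 = X := by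
      ext j' j
      have e1 : (h.1 * X * h⁻¹.1) j' j = ∑ β ∈ B.filter (fun β => U β = κ.1),
          φ κ.1 (∑ j1, h⁻¹.1 j1 j • y β (j1, i)) κ.2 * (h.1 * β) j' l := by
        rw [Matrix.mul_apply]
        simp only [Matrix.mul_apply, hX, Matrix.of_apply, Om, map_sum, map_smul, Finset.sum_apply,
          Pi.smul_apply, smul_eq_mul, Finset.mul_sum, Finset.sum_mul]
        conv_lhs =>
          enter [2, x]
          rw [Finset.sum_comm]
        rw [Finset.sum_comm]
        refine Finset.sum_congr rfl fun β _ => ?_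
        rw [Finset.sum_comm]
        refine Finset.sum_congr rfl fun j1 _ => Finset.sum_congr rfl fun j2 _ => ?_
        ring
      rw [e1]
      show _ = ∑ β ∈ B.filter (fun β => U β = κ.1), φ κ.1 (y β (j, i)) κ.2 * β j' l
      refine Finset.sum_nbij (act h) ?_ ?_ ?_ ?_
      · intro β hβ
        rw [Finset.mem_filter] at hβ ⊢
        exact ⟨h2 h hh β hβ.1, by rw [hUact h hh β hβ.1, hβ.2]⟩
      · intro β hβ β' hβ' hh'
        rw [Finset.mem_coe, Finset.mem_filter] at hβ hβ'
        exact h3 h hh β hβ.1 β' hβ'.1 hh'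
      · intro β' hβ'
        rw [Finset.mem_coe, Finset.mem_filter] at hβ'
        obtain ⟨β, hβ, hb⟩ := h4 h hh β' hβ'.1
        refine ⟨β, ?_, hb⟩
        rw [Finset.mem_coe, Finset.mem_filter]
        exact ⟨hβ, by rw [← hUact h hh β hβ, hb, hβ'.2]⟩
      · intro β hβ
        have hβ' := (Finset.mem_filter.mp hβ).1
        rw [hrow' h hh β hβ', map_smul, Pi.smul_apply, smul_eq_mul]
        have e2 : (h.1 * β) j' l = sc K (h.1 * β) * act h β j' l := by
          conv_lhs => rw [← sc_smul (K := K) (h.1 * β)]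
          rfl
        rw [e2]
        field_simp [sc_ne (K := K) (h.1 * β)]
    calc h.1 * X = h.1 * X * (h⁻¹.1 * h.1) := by
          rw [← Units.val_mul, inv_mul_cancel, Units.val_one, Matrix.mul_one]
      _ = h.1 * X * h⁻¹.1 * h.1 := by rw [Matrix.mul_assoc (h.1 * X)]
      _ = X * h.1 := by rw [key]
  choose Y hY1 hY2 using fun κ i l => hH _ (hcomm κ i l)
  let Z : (κ : Σ W : Submodule K (Fin m × Fin s → K), Fin (Module.finrank K W)) → (x : Θ) →
      Matrix (Fin m × Fin (p x)) (Fin (p x) × Fin s) K := fun κ x =>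
    Matrix.of fun r q => Y κ r.1 q.2 x q.1 r.2
  have hblk : ∀ κ, ∑ x, e x * (Z κ x).rank ≤ (Om κ).rank := by
    intro κ
    apply rank_blocks
    · intro i l x k k' v v'
      have := hY1 κ i l x k' k v' v
      rw [Matrix.of_apply] at this
      rw [this]
      by_cases hk : k = k'
      · rw [if_pos hk, if_pos hk.symm]; rfl
      · rw [if_neg hk, if_neg (fun h => hk h.symm)]
    · intro i l x x' v v' hx
      have := hY2 κ i l x' x v' v (fun h => hx h.symm)
      rwa [Matrix.of_apply] at this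
  -- the index set
  set F : Finset (Σ W : Submodule K (Fin m × Fin s → K), Fin (Module.finrank K W)) :=
    (B.image U).sigma fun _ => univ with hF
  have hfam : ∀ x, e x * rk K m (p x) s ≤ ∑ κ ∈ F, e x * (Z κ x).rank := by
    intro x
    rw [← Finset.mul_sum]
    rcases Nat.eq_zero_or_pos (e x) with h0 | h0
    · rw [h0]; simp
    refine Nat.mul_le_mul_left _ ?_
    refine rk_le_family F (fun κ => Z κ x) (fun κ => u κ.1 κ.2) ?_
    intro i v v' l l' i'
    let k0 : Fin (e x) := ⟨0, h0⟩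
    have hh := h1 i ⟨x, k0, v⟩ ⟨x, k0, v'⟩ l l' i'
    have e0 : (if (⟨x, k0, v⟩ : Ix e p) = ⟨x, k0, v'⟩ ∧ l = l' ∧ i = i' then (1 : K) else 0) =
        if v = v' ∧ l = l' ∧ i = i' then 1 else 0 := by simp
    rw [← e0, ← hh]
    have e1 : ∀ κ, Z κ x (i, v) (v', l) = ∑ β ∈ B.filter (fun β => U β = κ.1),
        φ κ.1 (y β (⟨x, k0, v⟩, i)) κ.2 * β ⟨x, k0, v'⟩ l := by
      intro κ
      have := hY1 κ i l x k0 k0 v' v
      rw [Matrix.of_apply, if_pos rfl] at this
      rw [show Z κ x (i, v) (v', l) = Y κ i l x v' v from rfl, ← this]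
      rfl
    rw [hF, Finset.sum_sigma]
    rw [← Finset.sum_fiberwise_of_maps_to (g := U) (t := B.image U)
      (fun β hβ => Finset.mem_image_of_mem _ hβ)]
    refine Finset.sum_congr rfl fun W _ => ?_
    simp only [e1, Finset.sum_mul]
    rw [Finset.sum_comm]
    refine Finset.sum_congr rfl fun β hβ => ?_
    have hβW := (Finset.mem_filter.mp hβ).2
    have e2 := hφ W (y β (⟨x, k0, v⟩, i)) (by rw [← hβW]; exact hmem β _)
    have e3 : y β (⟨x, k0, v⟩, i) (i', l') =
        ∑ t, φ W (y β (⟨x, k0, v⟩, i)) t * u W t (i', l') := by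
      conv_lhs => rw [e2]
      rw [Finset.sum_apply]
      rfl
    rw [e3, Finset.sum_mul]
    refine Finset.sum_congr rfl fun t _ => ?_
    ring
  calc ∑ x, e x * rk K m (p x) s ≤ ∑ x, ∑ κ ∈ F, e x * (Z κ x).rank :=
        Finset.sum_le_sum fun x _ => hfam x
    _ = ∑ κ ∈ F, ∑ x, e x * (Z κ x).rank := Finset.sum_comm
    _ ≤ ∑ κ ∈ F, (B.filter (fun β => U β = κ.1)).card :=
        Finset.sum_le_sum fun κ _ => (hblk κ).trans (hrank κ)
    _ = ∑ W ∈ B.image U, ∑ _i : Fin (Module.finrank K W), (B.filter (fun β => U β = W)).card := by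
        rw [hF, Finset.sum_sigma]
    _ = ∑ W ∈ B.image U, ∑ β ∈ B.filter (fun β => U β = W), (y β).rank := by
        refine Finset.sum_congr rfl fun W _ => ?_
        have : ∀ β ∈ B.filter (fun β => U β = W), (y β).rank = Module.finrank K W := by
          intro β hβ
          rw [← hUr, (Finset.mem_filter.mp hβ).2]
        rw [Finset.sum_congr rfl this, Finset.sum_const, Finset.sum_const, Finset.card_univ,
          Fintype.card_fin, smul_eq_mul, smul_eq_mul, mul_comm]
    _ = ∑ β ∈ B, (y β).rank :=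
        Finset.sum_fiberwise_of_maps_to (fun β hβ => Finset.mem_image_of_mem _ hβ) _

end Pool.Agent.TH2.MS
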