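import Pool.Agent.TH2.MS.Nrm

set_option autoImplicit false
set_option linter.unusedSectionVars false

/-!
# Classes of terms with proportional second factors
-/

namespace Pool.Agent.TH2.MS

open Finset Matrix

variable {K : Type*} [Field K]
variable {I J L T : Type*} [Fintype I] [DecidableEq I] [Fintype J] [DecidableEq J]
  [Fintype L] [DecidableEq L] [Fintype T]

section

variable (a : T → Matrix I J K) (b : T → Matrix J L K) (c : T → Matrix L I K)

open Classical in
/-- the nonzero terms -/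
noncomputable def T0 : Finset T := univ.filter fun t => a t ≠ 0 ∧ b t ≠ 0 ∧ c t ≠ 0

open Classical in
/-- the normalised second factors -/
noncomputable def Bs : Finset (Matrix J L K) := (T0 a b c).image fun t => nrm K (b t)

open Classical in
/-- the terms of a class -/
noncomputable def cl (β : Matrix J L K) : Finset T := (T0 a b c).filter fun t => nrm K (b t) = β

/-- the matrix of a class -/
noncomputable def Phi (β : Matrix J L K) : Matrix (J × I) (I × L) K :=
  Matrix.of fun r s => ∑ t ∈ cl a b c β, sc K (b t) * (a t r.2 r.1 * c t s.2 s.1)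

variable {a b c}

theorem mem_T0 {t : T} : t ∈ T0 a b c ↔ a t ≠ 0 ∧ b t ≠ 0 ∧ c t ≠ 0 := by
  classical
  simp [T0]

theorem mem_cl {t : T} {β : Matrix J L K} : t ∈ cl a b c β ↔ t ∈ T0 a b c ∧ nrm K (b t) = β := by
  classical
  simp [cl]

theorem mem_Bs {β : Matrix J L K} : β ∈ Bs a b c ↔ ∃ t ∈ T0 a b c, nrm K (b t) = β := by
  classical
  simp [Bs]

theorem Bs_ne {β : Matrix J L K} (hβ : β ∈ Bs a b c) : β ≠ 0 := by
  obtain ⟨t, ht, rfl⟩ := mem_Bs.mp hβ
  exact nrm_ne (mem_T0.mp ht).2.1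

theorem Bs_nrm {β : Matrix J L K} (hβ : β ∈ Bs a b c) : nrm K β = β := by
  obtain ⟨t, ht, rfl⟩ := mem_Bs.mp hβ
  exact nrm_nrm _

theorem card_cl : ∑ β ∈ Bs a b c, (cl a b c β).card = (T0 a b c).card := by
  classical
  exact (Finset.card_eq_sum_card_image _ _).symm

omit [Fintype I] [DecidableEq I] [Fintype J] [DecidableEq J] [Fintype L] [DecidableEq L] in
theorem b_eq {t : T} {β : Matrix J L K} (h : nrm K (b t) = β) (j : J) (l : L) :
    b t j l = sc K (b t) * β j l := by
  conv_lhs => rw [← sc_smul (K := K) (b t), h]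
  rfl

theorem phi_sum (h : IsMM a b c) (i : I) (j j' : J) (l l' : L) (i' : I) :
    ∑ β ∈ Bs a b c, Phi a b c β (j, i) (i', l') * β j' l =
      if j = j' ∧ l = l' ∧ i = i' then 1 else 0 := by
  classical
  rw [← h i j j' l l' i']
  have h1 : ∑ t, a t i j * b t j' l * c t l' i' =
      ∑ t ∈ T0 a b c, a t i j * b t j' l * c t l' i' := by
    symm
    apply Finset.sum_subset (Finset.subset_univ _)
    intro t _ ht
    rw [mem_T0] at ht
    by_cases h2 : a t = 0
    · rw [h2]; simp
    · by_cases h3 : b t = 0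
      · rw [h3]; simp
      · by_cases h4 : c t = 0
        · rw [h4]; simp
        · exact absurd ⟨h2, h3, h4⟩ ht
  rw [h1, ← Finset.sum_fiberwise_of_maps_to (g := fun t => nrm K (b t)) (t := Bs a b c)
    (fun t ht => mem_Bs.mpr ⟨t, ht, rfl⟩)]
  refine Finset.sum_congr rfl fun β _ => ?_
  show (∑ t ∈ cl a b c β, sc K (b t) * (a t i j * c t l' i')) * β j' l = _
  rw [Finset.sum_mul]
  refine Finset.sum_congr rfl fun t ht => ?_
  rw [b_eq (mem_cl.mp ht).2]
  ring

theorem phi_rank (β : Matrix J L K) : (Phi a b c β).rank ≤ (cl a b c β).card := by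
  refine rank_le_of_sum (cl a b c β) (fun t r => sc K (b t) * a t r.2 r.1)
    (fun t s => c t s.2 s.1) _ ?_
  intro r s
  show ∑ t ∈ cl a b c β, sc K (b t) * (a t r.2 r.1 * c t s.2 s.1) = _
  refine Finset.sum_congr rfl fun t _ => ?_
  ring

/-! ### Invariance under a matrix acting on the rows -/

omit [Fintype J] [DecidableEq J] [Fintype L] [DecidableEq L] [Fintype T] in
theorem gl_mul_ne {g : GL I K} {x : Matrix I J K} (hx : x ≠ 0) : g.1 * x ≠ 0 := by
  intro h
  apply hx
  have : g⁻¹.1 * (g.1 * x) = 0 := by rw [h, Matrix.mul_zero]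
  rwa [← Matrix.mul_assoc, ← Units.val_mul, inv_mul_cancel, Units.val_one, Matrix.one_mul] at this

omit [Fintype J] [DecidableEq J] [Fintype L] [DecidableEq L] [Fintype T] in
theorem mul_gl_ne {g : GL I K} {x : Matrix L I K} (hx : x ≠ 0) : x * g.1 ≠ 0 := by
  intro h
  apply hx
  have : (x * g.1) * g⁻¹.1 = 0 := by rw [h, Matrix.zero_mul]
  rwa [Matrix.mul_assoc, ← Units.val_mul, mul_inv_cancel, Units.val_one, Matrix.mul_one] at this

theorem row_pi {g : GL I K} {π : Equiv.Perm T} (hπ : ∀ t i j j' l l' i',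
    (g.1 * a t) i j * b t j' l * (c t * g⁻¹.1) l' i' = a (π t) i j * b (π t) j' l * c (π t) l' i')
    {t : T} (ht : t ∈ T0 a b c) : π t ∈ T0 a b c ∧ nrm K (b (π t)) = nrm K (b t) ∧
      ∀ i j l' i', sc K (b t) * ((g.1 * a t) i j * (c t * g⁻¹.1) l' i') =
        sc K (b (π t)) * (a (π t) i j * c (π t) l' i') := by
  obtain ⟨h1, h2, h3⟩ := mem_T0.mp ht
  obtain ⟨k1, k2, k3, ρ, hρ, k4, k5⟩ := rank_one_eq (K := K)
    (x := fun p : I × J => (g.1 * a t) p.1 p.2) (y := fun p : J × L => b t p.1 p.2)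
    (z := fun p : L × I => (c t * g⁻¹.1) p.1 p.2) (x' := fun p : I × J => a (π t) p.1 p.2)
    (y' := fun p : J × L => b (π t) p.1 p.2) (z' := fun p : L × I => c (π t) p.1 p.2)
    (fun p q r => hπ t p.1 p.2 q.1 q.2 r.1 r.2)
    (fun e => gl_mul_ne h1 (by ext i j; exact congrFun e (i, j)))
    (fun e => h2 (by ext i j; exact congrFun e (i, j)))
    (fun e => mul_gl_ne (g := g⁻¹) h3 (by ext i j; exact congrFun e (i, j)))
  have k4' : b (π t) = ρ • b t := by
    ext j l
    exact congrFun k4 (j, l)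
  refine ⟨mem_T0.mpr ⟨fun e => k1 (by rw [e]; rfl), fun e => k2 (by rw [e]; rfl),
    fun e => k3 (by rw [e]; rfl)⟩, ?_, ?_⟩
  · rw [k4', nrm_smul hρ]
  · intro i j l' i'
    have := k5 (i, j) (l', i')
    simp only at this
    rw [this, k4', sc_smul_eq hρ h2]
    ring

theorem row_pi_iff {g : GL I K} {π : Equiv.Perm T} (hπ : ∀ t i j j' l l' i',
    (g.1 * a t) i j * b t j' l * (c t * g⁻¹.1) l' i' = a (π t) i j * b (π t) j' l * c (π t) l' i')
    (t : T) : π t ∈ T0 a b c ↔ t ∈ T0 a b c := by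
  constructor
  · intro ht
    obtain ⟨h1, h2, h3⟩ := mem_T0.mp ht
    obtain ⟨k1, k2, k3, -⟩ := rank_one_eq (K := K)
      (x' := fun p : I × J => (g.1 * a t) p.1 p.2) (y' := fun p : J × L => b t p.1 p.2)
      (z' := fun p : L × I => (c t * g⁻¹.1) p.1 p.2) (x := fun p : I × J => a (π t) p.1 p.2)
      (y := fun p : J × L => b (π t) p.1 p.2) (z := fun p : L × I => c (π t) p.1 p.2)
      (fun p q r => (hπ t p.1 p.2 q.1 q.2 r.1 r.2).symm)
      (fun e => h1 (by ext i j; exact congrFun e (i, j)))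
      (fun e => h2 (by ext i j; exact congrFun e (i, j)))
      (fun e => h3 (by ext i j; exact congrFun e (i, j)))
    refine mem_T0.mpr ⟨fun e => k1 ?_, fun e => k2 (by rw [e]; rfl), fun e => k3 ?_⟩
    · rw [e, Matrix.mul_zero]; rfl
    · rw [e, Matrix.zero_mul]; rfl
  · intro ht
    exact (row_pi hπ ht).1

theorem row_comm {g : GL I K} (hg : RowInv a b c g) (β : Matrix J L K) (j : J) (l : L) :
    g.1 * (Matrix.of fun i i' => Phi a b c β (j, i) (i', l)) =
      (Matrix.of fun i i' => Phi a b c β (j, i) (i', l)) * g.1 := by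
  classical
  obtain ⟨π, hπ⟩ := hg
  set X : Matrix I I K := Matrix.of fun i i' => Phi a b c β (j, i) (i', l) with hX
  have key : g.1 * X * g⁻¹.1 = X := by
    ext i i'
    have e1 : (g.1 * X * g⁻¹.1) i i' =
        ∑ t ∈ cl a b c β, sc K (b t) * ((g.1 * a t) i j * (c t * g⁻¹.1) l i') := by
      rw [Matrix.mul_apply]
      simp only [Matrix.mul_apply, hX, Matrix.of_apply, Phi, Finset.mul_sum, Finset.sum_mul]
      conv_lhs =>
        enter [2, x]
        rw [Finset.sum_comm]
      rw [Finset.sum_comm]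
      refine Finset.sum_congr rfl fun t _ => Finset.sum_congr rfl fun x _ =>
        Finset.sum_congr rfl fun y _ => ?_
      ring
    rw [e1]
    show _ = ∑ t ∈ cl a b c β, sc K (b t) * (a t i j * c t l i')
    refine Finset.sum_equiv π ?_ ?_
    · intro t
      rw [mem_cl, mem_cl, row_pi_iff hπ]
      constructor
      · rintro ⟨h1, h2⟩
        exact ⟨h1, by rw [(row_pi hπ h1).2.1, h2]⟩
      · rintro ⟨h1, h2⟩
        exact ⟨h1, by rw [← (row_pi hπ h1).2.1, h2]⟩
    · intro t ht
      exact (row_pi hπ (mem_cl.mp ht).1).2.2 i j l i'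
  calc g.1 * X = g.1 * X * (g⁻¹.1 * g.1) := by
        rw [← Units.val_mul, inv_mul_cancel, Units.val_one, Matrix.mul_one]
    _ = g.1 * X * g⁻¹.1 * g.1 := by rw [Matrix.mul_assoc (g.1 * X)]
    _ = X * g.1 := by rw [key]

end

end Pool.Agent.TH2.MS
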