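import Pool.Agent.TH2.MS.Lower

set_option autoImplicit false
set_option linter.unusedSectionVars false

/-!
# The block algorithm is invariant under block monomial matrices
-/

namespace Pool.Agent.TH2.MS

open Finset Matrix

variable {K : Type*} [Field K]

section ext

variable {Λ : Type*} [Fintype Λ] [DecidableEq Λ] {d m : Λ → ℕ}

/-- the number of the copy to which an index belongs -/
def blk (i : Ix d m) : Σ x : Λ, Fin (d x) := ⟨i.1, i.2.1⟩

theorem ext0_same (x : Λ) (k : Fin (d x)) (g : Fin (m x) → K) (u : Fin (m x)) :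
    ext0 (⟨x, k⟩ : Σ x : Λ, Fin (d x)) g (⟨x, k, u⟩ : Ix d m) = g u := by
  simp [ext0]

theorem ext0_ne {w : Σ x : Λ, Fin (d x)} {g : Fin (m w.1) → K} {i : Ix d m} (h : blk i ≠ w) :
    ext0 w g i = 0 := by
  unfold ext0
  split_ifs with h1 h2
  · exfalso
    apply h
    obtain ⟨x, k, u⟩ := i
    obtain ⟨x', k'⟩ := w
    simp only at h1
    subst h1
    simp only at h2
    rw [← h2]
    rfl
  · rfl
  · rfl

end ext

/-- the monomial block matrices: `g = ⊕ (P x ⊗ 1)` with monomial matrices `P x` -/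
def Mono {Λ : Type*} [DecidableEq Λ] (d m : Λ → ℕ) (g : Matrix (Ix d m) (Ix d m) K) : Prop :=
  ∃ (σ : ∀ x, Equiv.Perm (Fin (d x))) (ζ : (Σ x : Λ, Fin (d x)) → K), (∀ w, ζ w ≠ 0) ∧
    ∀ x k u y, g ⟨x, k, u⟩ y = if y = ⟨x, σ x k, u⟩ then ζ ⟨x, k⟩ else 0

section mono

variable {Λ : Type*} [Fintype Λ] [DecidableEq Λ] {d m : Λ → ℕ}

/-- the permutation of the indices -/
def pIx (σ : ∀ x, Equiv.Perm (Fin (d x))) : Equiv.Perm (Ix d m) :=
  Equiv.sigmaCongrRight fun x => Equiv.prodCongr (σ x) (Equiv.refl _)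

/-- the permutation of the copies -/
def pBl (σ : ∀ x, Equiv.Perm (Fin (d x))) : Equiv.Perm (Σ x : Λ, Fin (d x)) :=
  Equiv.sigmaCongrRight fun x => σ x

theorem blk_pIx (σ : ∀ x, Equiv.Perm (Fin (d x))) (i : Ix d m) :
    blk (pIx (m := m) σ i) = pBl σ (blk i) := rfl

theorem ext0_pIx (σ : ∀ x, Equiv.Perm (Fin (d x))) (x : Λ) (k : Fin (d x)) (g : Fin (m x) → K)
    (i : Ix d m) : ext0 (⟨x, k⟩ : Σ x : Λ, Fin (d x)) g (pIx (m := m) σ i) =
      ext0 (⟨x, (σ x).symm k⟩ : Σ x : Λ, Fin (d x)) g i := by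
  by_cases h : blk i = ⟨x, (σ x).symm k⟩
  · obtain ⟨x', k', u⟩ := i
    have h1 : x' = x := congrArg Sigma.fst h
    subst h1
    have h2 : k' = (σ x').symm k := by
      have := (Sigma.mk.inj_iff.mp h).2
      exact eq_of_heq this
    subst h2
    rw [ext0_same]
    have : pIx (m := m) σ ⟨x', (σ x').symm k, u⟩ = ⟨x', k, u⟩ := by
      show (⟨x', σ x' ((σ x').symm k), u⟩ : Ix d m) = _
      rw [Equiv.apply_symm_apply]
    rw [this, ext0_same]
  · rw [ext0_ne h, ext0_ne]
    intro h1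
    apply h
    rw [blk_pIx] at h1
    have : blk i = (pBl σ).symm ⟨x, k⟩ := by rw [← h1, Equiv.symm_apply_apply]
    rw [this]
    rfl

theorem mono_mul {g : Matrix (Ix d m) (Ix d m) K} {σ : ∀ x, Equiv.Perm (Fin (d x))}
    {ζ : (Σ x : Λ, Fin (d x)) → K}
    (hg : ∀ x k u y, g ⟨x, k, u⟩ y = if y = ⟨x, σ x k, u⟩ then ζ ⟨x, k⟩ else 0)
    {J : Type*} (A : Matrix (Ix d m) J K) (i : Ix d m) (j : J) :
    (g * A) i j = ζ (blk i) * A (pIx σ i) j := by
  obtain ⟨x, k, u⟩ := i
  rw [Matrix.mul_apply]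
  simp only [hg]
  simp only [ite_mul, zero_mul, Finset.sum_ite_eq', Finset.mem_univ, if_true]
  rfl

theorem mono_inv {g : GL (Ix d m) K} {σ : ∀ x, Equiv.Perm (Fin (d x))}
    {ζ : (Σ x : Λ, Fin (d x)) → K} (hζ : ∀ w, ζ w ≠ 0)
    (hg : ∀ x k u y, g.1 ⟨x, k, u⟩ y = if y = ⟨x, σ x k, u⟩ then ζ ⟨x, k⟩ else 0)
    {L : Type*} (A : Matrix L (Ix d m) K) (l : L) (i : Ix d m) :
    (A * g⁻¹.1) l i = (ζ (blk i))⁻¹ * A l (pIx σ i) := by
  have h1 : ∀ y, g⁻¹.1 (pIx σ y) i = if y = i then (ζ (blk i))⁻¹ else 0 := by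
    intro y
    have h2 : (g.1 * g⁻¹.1) y i = (1 : Matrix (Ix d m) (Ix d m) K) y i := by
      rw [← Units.val_mul, mul_inv_cancel, Units.val_one]
    rw [mono_mul hg, Matrix.one_apply] at h2
    by_cases h3 : y = i
    · subst h3
      rw [if_pos rfl] at h2 ⊢
      exact eq_inv_of_mul_eq_one_right h2
    · rw [if_neg h3] at h2 ⊢
      exact (mul_eq_zero.mp h2).resolve_left (hζ _)
  rw [Matrix.mul_apply, ← Equiv.sum_comp (pIx (m := m) σ)]
  simp only [h1]
  simp [mul_comm]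

end mono

variable {Λ Θ : Type*} [Fintype Λ] [DecidableEq Λ] [Fintype Θ] [DecidableEq Θ]

theorem exists_mm (K : Type*) [Field K] (p q s : ℕ) :
    ∃ (a : Fin (rk K p q s) → Matrix (Fin p) (Fin q) K)
      (b : Fin (rk K p q s) → Matrix (Fin q) (Fin s) K)
      (c : Fin (rk K p q s) → Matrix (Fin s) (Fin p) K), IsMM a b c := by
  classical
  have hne : {N | ∃ (a : Fin N → Matrix (Fin p) (Fin q) K) (b : Fin N → Matrix (Fin q) (Fin s) K)
    (c : Fin N → Matrix (Fin s) (Fin p) K), IsMM a b c}.Nonempty := by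
    refine ⟨Fintype.card (Fin p × Fin q × Fin s), ?_⟩
    let E := (Fintype.equivFin (Fin p × Fin q × Fin s)).symm
    refine ⟨fun t => Matrix.of fun i j => if i = (E t).1 ∧ j = (E t).2.1 then 1 else 0,
      fun t => Matrix.of fun j l => if j = (E t).2.1 ∧ l = (E t).2.2 then 1 else 0,
      fun t => Matrix.of fun l i => if l = (E t).2.2 ∧ i = (E t).1 then 1 else 0, ?_⟩
    intro i j j' l l' i'
    rw [Equiv.sum_comp E fun r : Fin p × Fin q × Fin s =>
      (Matrix.of fun i j => if i = r.1 ∧ j = r.2.1 then (1 : K) else 0) i j *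
      (Matrix.of fun j l => if j = r.2.1 ∧ l = r.2.2 then (1 : K) else 0) j' l *
      (Matrix.of fun l i => if l = r.2.2 ∧ i = r.1 then (1 : K) else 0) l' i']
    rw [Finset.sum_eq_single (i, j, l)]
    · by_cases h1 : j = j' <;> by_cases h2 : l = l' <;> by_cases h3 : i = i' <;>
        simp [h1, h2, h3, eq_comm]
    · rintro ⟨x, y, z⟩ _ hr
      simp only [Matrix.of_apply]
      by_cases h1 : i = x
      · by_cases h2 : j = y
        · by_cases h3 : l = z
          · exact absurd (by rw [h1, h2, h3]) hr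
          · simp [h3]
        · simp [h2]
      · simp [h1]
    · simp
  exact Nat.sInf_mem hne

/-! ### The block algorithm -/

/-- the index set of the terms of the block algorithm -/
abbrev Wx (K : Type*) [Field K] {Λ Θ : Type*} (d m : Λ → ℕ) (e p : Θ → ℕ) (s : ℕ) : Type _ :=
  Σ xz : Λ × Θ, Fin (d xz.1) × Fin (e xz.2) × Fin (rk K (m xz.1) (p xz.2) s)

section block

variable {d m : Λ → ℕ} {e p : Θ → ℕ} {s : ℕ}
  (a0 : ∀ xz : Λ × Θ, Fin (rk K (m xz.1) (p xz.2) s) → Matrix (Fin (m xz.1)) (Fin (p xz.2)) K)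
  (b0 : ∀ xz : Λ × Θ, Fin (rk K (m xz.1) (p xz.2) s) → Matrix (Fin (p xz.2)) (Fin s) K)
  (c0 : ∀ xz : Λ × Θ, Fin (rk K (m xz.1) (p xz.2) s) → Matrix (Fin s) (Fin (m xz.1)) K)

/-- first factors of the block algorithm -/
noncomputable def aB (w : Wx K d m e p s) : Matrix (Ix d m) (Ix e p) K :=
  Matrix.of fun i j => ext0 (⟨w.1.1, w.2.1⟩ : Σ x : Λ, Fin (d x))
    (fun u => ext0 (⟨w.1.2, w.2.2.1⟩ : Σ x : Θ, Fin (e x)) (fun v => a0 w.1 w.2.2.2 u v) j) i

/-- second factors of the block algorithm -/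
noncomputable def bB (w : Wx K d m e p s) : Matrix (Ix e p) (Fin s) K :=
  Matrix.of fun j l => ext0 (⟨w.1.2, w.2.2.1⟩ : Σ x : Θ, Fin (e x)) (fun v => b0 w.1 w.2.2.2 v l) j

/-- third factors of the block algorithm -/
noncomputable def cB (w : Wx K d m e p s) : Matrix (Fin s) (Ix d m) K :=
  Matrix.of fun l i => ext0 (⟨w.1.1, w.2.1⟩ : Σ x : Λ, Fin (d x)) (fun u => c0 w.1 w.2.2.2 l u) i

theorem isMM_block (h : ∀ xz, IsMM (a0 xz) (b0 xz) (c0 xz)) :
    IsMM (aB (d := d) (e := e) a0) (bB (d := d) (e := e) b0) (cB (d := d) (e := e) c0) := by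
  intro i j j' l l' i'
  obtain ⟨x, k, u⟩ := i
  obtain ⟨z, k', v⟩ := j
  rw [Fintype.sum_sigma, Finset.sum_eq_single (x, z)]
  · rw [Fintype.sum_prod_type, Finset.sum_eq_single k]
    · rw [Fintype.sum_prod_type, Finset.sum_eq_single k']
      · simp only [aB, bB, cB, Matrix.of_apply, ext0_same]
        by_cases h1 : blk j' = ⟨z, k'⟩
        · by_cases h2 : blk i' = ⟨x, k⟩
          · obtain ⟨z1, k1', v'⟩ := j'
            obtain ⟨x1, k1, u'⟩ := i'
            have e1 : z1 = z := congrArg Sigma.fst h1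
            subst e1
            have e2 : k1' = k' := eq_of_heq (Sigma.mk.inj_iff.mp h1).2
            subst e2
            have e3 : x1 = x := congrArg Sigma.fst h2
            subst e3
            have e4 : k1 = k := eq_of_heq (Sigma.mk.inj_iff.mp h2).2
            subst e4
            simp only [ext0_same]
            rw [h (x1, z1) u v v' l l' u']
            simp
          · have h3 : (⟨x, k, u⟩ : Ix d m) ≠ i' := fun h3 => h2 (by rw [← h3]; rfl)
            rw [if_neg (fun h4 => h3 h4.2.2)]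
            refine Finset.sum_eq_zero fun t _ => ?_
            rw [ext0_ne h2, mul_zero]
        · have h3 : (⟨z, k', v⟩ : Ix e p) ≠ j' := fun h3 => h1 (by rw [← h3]; rfl)
          rw [if_neg (fun h4 => h3 h4.1)]
          refine Finset.sum_eq_zero fun t _ => ?_
          rw [ext0_ne h1, mul_zero, zero_mul]
      · intro k1 _ hk
        refine Finset.sum_eq_zero fun t _ => ?_
        simp only [aB, Matrix.of_apply, ext0_same]
        rw [ext0_ne (w := (⟨z, k1⟩ : Σ x : Θ, Fin (e x)))]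
        · ring
        · intro h1
          exact hk (eq_of_heq (Sigma.mk.inj_iff.mp h1).2).symm
      · simp
    · intro k1 _ hk
      refine Finset.sum_eq_zero fun t _ => ?_
      simp only [aB, Matrix.of_apply]
      rw [ext0_ne (w := (⟨x, k1⟩ : Σ x : Λ, Fin (d x)))]
      · ring
      · intro h1
        exact hk (eq_of_heq (Sigma.mk.inj_iff.mp h1).2).symm
    · simp
  · rintro ⟨x1, z1⟩ _ hxz
    refine Finset.sum_eq_zero fun t _ => ?_
    simp only [aB, Matrix.of_apply]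
    by_cases hx : x = x1
    · subst hx
      have hz : z ≠ z1 := fun hz => hxz (by rw [hz])
      have : ∀ u' : Fin (m x), ext0 (⟨z1, t.2.1⟩ : Σ x : Θ, Fin (e x))
          (fun v => a0 (x, z1) t.2.2 u' v) (⟨z, k', v⟩ : Ix e p) = 0 := by
        intro u'
        rw [ext0_ne]
        intro h1
        exact hz (congrArg Sigma.fst h1)
      simp only [this]
      by_cases hk : blk (⟨x, k, u⟩ : Ix d m) = ⟨x, t.1⟩
      · have e4 : k = t.1 := eq_of_heq (Sigma.mk.inj_iff.mp hk).2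
        rw [← e4, ext0_same]
        ring
      · rw [ext0_ne hk]
        ring
    · rw [ext0_ne (w := (⟨x1, t.1⟩ : Σ x : Λ, Fin (d x)))]
      · ring
      · intro h1
        exact hx (congrArg Sigma.fst h1)
  · simp

/-- permutation of the terms -/
def pW1 (σ : ∀ x, Equiv.Perm (Fin (d x))) : Equiv.Perm (Wx K d m e p s) :=
  Equiv.sigmaCongrRight fun xz => Equiv.prodCongr (σ xz.1).symm (Equiv.refl _)

/-- permutation of the terms -/
def pW2 (σ : ∀ x, Equiv.Perm (Fin (e x))) : Equiv.Perm (Wx K d m e p s) :=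
  Equiv.sigmaCongrRight fun xz =>
    Equiv.prodCongr (Equiv.refl _) (Equiv.prodCongr (σ xz.2).symm (Equiv.refl _))

theorem ext0_mul_inv {d m : Λ → ℕ} (w : Σ x : Λ, Fin (d x)) (f f' : Fin (m w.1) → K)
    (ζ : (Σ x : Λ, Fin (d x)) → K) (hζ : ∀ w, ζ w ≠ 0) (i i' : Ix d m) (y : K) :
    ζ (blk i) * ext0 w f i * y * ((ζ (blk i'))⁻¹ * ext0 w f' i') =
      ext0 w f i * y * ext0 w f' i' := by
  by_cases h1 : blk i = w
  · by_cases h2 : blk i' = w
    · rw [h1, h2]
      field_simp [hζ w]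
    · rw [ext0_ne h2]
      ring
  · rw [ext0_ne h1]
    ring

theorem rowInv_block {g : GL (Ix d m) K} (hg : Mono d m g.1) :
    RowInv (aB (d := d) (e := e) a0) (bB (d := d) (e := e) b0) (cB (d := d) (e := e) c0) g := by
  obtain ⟨σ, ζ, hζ, hg⟩ := hg
  refine ⟨pW1 σ, ?_⟩
  rintro ⟨⟨x, z⟩, k, k', t⟩ i j j' l l' i'
  rw [mono_mul hg, mono_inv hζ hg]
  simp only [aB, bB, cB, Matrix.of_apply]
  rw [ext0_pIx, ext0_pIx]
  exact ext0_mul_inv _ _ _ ζ hζ _ _ _

theorem midInv_block {g : GL (Ix e p) K} (hg : Mono e p g.1) :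
    MidInv (aB (d := d) (e := e) a0) (bB (d := d) (e := e) b0) (cB (d := d) (e := e) c0) g := by
  obtain ⟨σ, ζ, hζ, hg⟩ := hg
  refine ⟨pW2 σ, ?_⟩
  rintro ⟨⟨x, z⟩, k, k', t⟩ i j j' l l' i'
  rw [mono_mul hg, mono_inv hζ hg]
  simp only [aB, bB, cB, Matrix.of_apply]
  simp only [ext0_pIx]
  show _ = ext0 (⟨x, k⟩ : Σ x : Λ, Fin (d x))
    (fun u => ext0 (⟨z, (σ z).symm k'⟩ : Σ x : Θ, Fin (e x)) (fun v => a0 (x, z) t u v) j) i *
    ext0 (⟨z, (σ z).symm k'⟩ : Σ x : Θ, Fin (e x)) (fun v => b0 (x, z) t v l) j' *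
    ext0 (⟨x, k⟩ : Σ x : Λ, Fin (d x)) (fun u => c0 (x, z) t l' u) i'
  by_cases h1 : blk i = ⟨x, k⟩
  · obtain ⟨x1, k1, u⟩ := i
    have e1 : x1 = x := congrArg Sigma.fst h1
    subst e1
    have e2 : k1 = k := eq_of_heq (Sigma.mk.inj_iff.mp h1).2
    subst e2
    simp only [ext0_same]
    have := ext0_mul_inv (⟨z, (σ z).symm k'⟩ : Σ x : Θ, Fin (e x)) (fun v => b0 (x1, z) t v l)
      (fun v => a0 (x1, z) t u v) ζ hζ j' j 1
    linear_combination (ext0 (⟨x1, k1⟩ : Σ x : Λ, Fin (d x)) (fun u => c0 (x1, z) t l' u) i') * this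
  · simp only [ext0_ne h1]
    ring

end block

theorem to_fin {I J L T : Type*} [Fintype I] [DecidableEq I] [Fintype J]
    [DecidableEq J] [Fintype L] [DecidableEq L] [Fintype T] {N : ℕ} (hN : Fintype.card T = N)
    {a : T → Matrix I J K} {b : T → Matrix J L K} {c : T → Matrix L I K} (h : IsMM a b c)
    (G : Set (GL I K)) (H : Set (GL J K)) (hG : ∀ g ∈ G, RowInv a b c g)
    (hH : ∀ g ∈ H, MidInv a b c g) :
    ∃ (a : Fin N → Matrix I J K) (b : Fin N → Matrix J L K)
      (c : Fin N → Matrix L I K), IsMM a b c ∧ (∀ g ∈ G, RowInv a b c g) ∧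
        ∀ h ∈ H, MidInv a b c h := by
  let E : Fin N ≃ T := (finCongr hN.symm).trans (Fintype.equivFin T).symm
  refine ⟨fun t => a (E t), fun t => b (E t), fun t => c (E t), ?_, ?_, ?_⟩
  · intro i j j' l l' i'
    rw [← h i j j' l l' i']
    exact Equiv.sum_comp E fun t => a t i j * b t j' l * c t l' i'
  · intro g hg
    obtain ⟨π, hπ⟩ := hG g hg
    refine ⟨(E.trans π).trans E.symm, fun t i j j' l l' i' => ?_⟩
    have := hπ (E t) i j j' l l' i'
    simpa using this
  · intro g hg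
    obtain ⟨π, hπ⟩ := hH g hg
    refine ⟨(E.trans π).trans E.symm, fun t i j j' l l' i' => ?_⟩
    have := hπ (E t) i j j' l l' i'
    simpa using this

/-- **Exactness.**  If the groups are block monomial in the coordinates in which they are isotypic,
the lower bound is attained. -/
theorem exact_formula (d m : Λ → ℕ) (e p : Θ → ℕ)
    {I J L : Type*} [Fintype I] [DecidableEq I] [Fintype J]
    [DecidableEq J] [Fintype L] [DecidableEq L]
    (G : Set (GL I K)) (H : Set (GL J K)) (e1 : I ≃ Ix d m) (e2 : J ≃ Ix e p) (S1 : GL I K)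
    (S2 : GL J K) (hG : Isotypic d m e1 S1 G) (hH : Isotypic e p e2 S2 H)
    (hG' : ∀ g ∈ G, Mono d m ((S1 * g * S1⁻¹).1.submatrix e1.symm e1.symm))
    (hH' : ∀ h ∈ H, Mono e p ((S2 * h * S2⁻¹).1.submatrix e2.symm e2.symm)) :
    IsLeast {N : ℕ | ∃ (a : Fin N → Matrix I J K) (b : Fin N → Matrix J L K)
      (c : Fin N → Matrix L I K), IsMM a b c ∧ (∀ g ∈ G, RowInv a b c g) ∧
        ∀ h ∈ H, MidInv a b c h}
      (∑ x, ∑ z, d x * e z * rk K (m x) (p z) (Fintype.card L)) := by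
  classical
  constructor
  · choose a0 b0 c0 h0 using fun xz : Λ × Θ =>
      exists_mm K (m xz.1) (p xz.2) (Fintype.card L)
    have h1 := isMM_block (d := d) (e := e) a0 b0 c0 h0
    have h2 := isMM_mid (isMM_row (isMM_sub e1 e2 (Fintype.equivFin L) h1) S1⁻¹) S2⁻¹
    have hcard : Fintype.card (Wx K d m e p (Fintype.card L)) =
        ∑ x, ∑ z, d x * e z * rk K (m x) (p z) (Fintype.card L) := by
      rw [Fintype.card_sigma, Fintype.sum_prod_type]
      refine Finset.sum_congr rfl fun x _ => Finset.sum_congr rfl fun z _ => ?_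
      simp [mul_assoc]
    refine to_fin hcard h2 G H ?_ ?_
    · intro g hg
      have k1 : RowInv (aB (d := d) (e := e) a0) (bB (d := d) (e := e) b0)
          (cB (d := d) (e := e) c0) (rein e1.symm (S1 * g * S1⁻¹)) := rowInv_block _ _ _ (hG' g hg)
      have k2 := rowInv_mid (rowInv_row (rowInv_sub e1 e2 (Fintype.equivFin L) k1) S1⁻¹) S2⁻¹
      have k3 : S1⁻¹ * rein e1 (rein e1.symm (S1 * g * S1⁻¹)) * S1⁻¹⁻¹ = g := by
        have : rein e1 (rein e1.symm (S1 * g * S1⁻¹)) = S1 * g * S1⁻¹ := by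
          apply Units.ext
          rw [rein_val, rein_val]
          ext i j
          simp
        rw [this]
        group
      rw [k3] at k2
      exact k2
    · intro g hg
      have k1 : MidInv (aB (d := d) (e := e) a0) (bB (d := d) (e := e) b0)
          (cB (d := d) (e := e) c0) (rein e2.symm (S2 * g * S2⁻¹)) := midInv_block _ _ _ (hH' g hg)
      have k2 := midInv_mid (midInv_row (midInv_sub e1 e2 (Fintype.equivFin L) k1) S1⁻¹) S2⁻¹
      have k3 : S2⁻¹ * rein e2 (rein e2.symm (S2 * g * S2⁻¹)) * S2⁻¹⁻¹ = g := by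
        have : rein e2 (rein e2.symm (S2 * g * S2⁻¹)) = S2 * g * S2⁻¹ := by
          apply Units.ext
          rw [rein_val, rein_val]
          ext i j
          simp
        rw [this]
        group
      rw [k3] at k2
      exact k2
  · rintro N ⟨a, b, c, h, hGi, hHi⟩
    have := lower d m e p h G H e1 e2 S1 S2 hG hH hGi hHi
    rwa [Fintype.card_fin] at this

end Pool.Agent.TH2.MS
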